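import Pool.Agent.Q262.UG.Many

/-!
# The growth rate is bounded below by the product of the eigenvalues
-/

set_option autoImplicit false
set_option linter.unusedSectionVars false

namespace Pool.Agent.Q262.UG

open Subgroup Pool.Agent.H746UG Polynomial Filter Topology
open scoped IsMulCommutative commutatorElement Pointwise

section
variable {G : Type*} [Group G] {N : Subgroup G} [N.Normal] [hN : IsMulCommutative N] {t : G} {n : ℕ}
  {A : Matrix (Fin n) (Fin n) ℤ} (e : Additive N ≃+ (Fin n → ℤ))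
  (hconj : ∀ a, e (th N t a) = A.mulVec (e a))

include hconj in
/-- the weight of an eigenvalue, with given exponents -/
theorem weight_with {k : G → ℤ} (hk : ∀ g, ∃ x ∈ N, g = t ^ k g * x) {l : ℂ}
    (hl : (A.charpoly.map (Int.castRingHom ℂ)).IsRoot l) :
    l ≠ 0 ∧ ∃ φ : Additive N →+ ℂ, IsWeight N φ (fun g => l ^ k g) ∧
      (∀ a, φ (th N t a) = l * φ a) := by
  classical
  have hdet : (l • (1 : Matrix (Fin n) (Fin n) ℂ) - A.map (Int.castRingHom ℂ)).det = 0 := by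
    have h1 : A.charpoly.map (Int.castRingHom ℂ) = (A.map (Int.castRingHom ℂ)).charpoly :=
      (Matrix.charpoly_map A (Int.castRingHom ℂ)).symm
    rw [h1, IsRoot.def, Matrix.eval_charpoly] at hl
    rw [← hl]
    congr 1
    ext i j
    simp [Matrix.scalar_apply, Matrix.one_apply, Matrix.diagonal_apply]
  obtain ⟨u, hu0, hu⟩ := Matrix.exists_vecMul_eq_zero_iff.2 hdet
  have hu' : Matrix.vecMul u (A.map (Int.castRingHom ℂ)) = l • u := by
    rw [Matrix.vecMul_sub, Matrix.vecMul_smul, Matrix.vecMul_one, sub_eq_zero] at hu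
    exact hu.symm
  set φ := functional e u with hφ
  have hact := functional_act e hconj u l hu'
  rw [← hφ] at hact
  have hne : ∃ a, φ a ≠ 0 := by
    obtain ⟨i, hi⟩ := Function.ne_iff.1 hu0
    refine ⟨e.symm (Pi.single i 1), ?_⟩
    show ∑ j, u j * ((e (e.symm (Pi.single i 1)) j : ℤ) : ℂ) ≠ 0
    rw [e.apply_symm_apply, Finset.sum_eq_single i]
    · simpa using hi
    · intro j _ hj
      rw [Pi.single_eq_of_ne hj]; simp
    · intro h; exact absurd (Finset.mem_univ i) h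
  have hl0 : l ≠ 0 := by
    rintro rfl
    obtain ⟨a, ha⟩ := hne
    apply ha
    have h1 := hact (th N t⁻¹ a)
    rw [← th_mul_apply, mul_inv_cancel, map_one, zero_mul] at h1
    exact h1
  have hinv : ∀ a, φ (th N t⁻¹ a) = l⁻¹ * φ a := by
    intro a
    have h1 := hact (th N t⁻¹ a)
    rw [← th_mul_apply, mul_inv_cancel, map_one] at h1
    have h2 : φ a = l * φ (th N t⁻¹ a) := h1
    rw [h2, inv_mul_cancel_left₀ hl0]
  have hnat : ∀ (m : ℕ) (s : G) (c : ℂ), (∀ a, φ (th N s a) = c * φ a) →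
      ∀ a, φ (th N (s ^ m) a) = c ^ m * φ a := by
    intro m s c hs
    induction m with
    | zero => intro a; rw [pow_zero, pow_zero, map_one]; simp
    | succ m ih =>
      intro a
      rw [pow_succ, th_mul_apply, ih, hs, pow_succ]; ring
  have hz : ∀ (k : ℤ) a, φ (th N (t ^ k) a) = l ^ k * φ a := by
    intro k a
    rcases Int.natAbs_eq k with h | h
    · rw [h, zpow_natCast, zpow_natCast]
      exact hnat _ t l hact a
    · rw [h, zpow_neg, zpow_natCast, zpow_neg, zpow_natCast, ← inv_pow, ← inv_pow]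
      exact hnat _ t⁻¹ l⁻¹ hinv a
  refine ⟨hl0, φ, ⟨hne, ?_⟩, hact⟩
  intro g a
  obtain ⟨x, hx, hg⟩ := hk g
  conv_lhs => rw [hg]
  rw [th_mul_apply, hz, th_of_mem hx]
  rfl

/-- the pairs of short words -/
noncomputable def pairs (S : Set G) (hS : S.Finite) : Finset (G × G) := by
  classical
  exact (hS.toFinset ×ˢ hS.toFinset ×ˢ (Finset.univ : Finset Bool)).image
    (fun q => if q.2.2 then (q.1 * q.2.1, q.2.1 * q.1) else (q.1 * q.1 * q.2.1, q.1 * q.2.1 * q.1))

lemma pairs_card (S : Set G) (hS : S.Finite) : (pairs S hS).card ≤ 2 * S.ncard ^ 2 := by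
  classical
  refine Finset.card_image_le.trans ?_
  rw [Finset.card_product, Finset.card_product, Finset.card_univ, Fintype.card_bool,
    ← Set.ncard_eq_toFinset_card S hS]
  ring_nf
  exact le_rfl

lemma mem_pairs {S : Set G} (hS : S.Finite) {s t X Y : G} (hs : s ∈ S) (ht : t ∈ S)
    (h : (X = s * t ∧ Y = t * s) ∨ (X = s * s * t ∧ Y = s * t * s)) : (X, Y) ∈ pairs S hS := by
  classical
  unfold pairs
  rw [Finset.mem_image]
  rcases h with ⟨rfl, rfl⟩ | ⟨rfl, rfl⟩
  · exact ⟨(s, t, true), by simp [hs, ht], by simp⟩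
  · exact ⟨(s, t, false), by simp [hs, ht], by simp⟩

include e hconj in
/-- the growth rate is bounded below by the product of all distinct eigenvalues outside the unit
disc -/
theorem rho_ge_many (hgen : closure (insert t (N : Set G)) = ⊤) (S : Set G) (hS : S.Finite)
    (hSg : closure S = ⊤) (Λ : Finset ℂ) (hΛ : ∀ l ∈ Λ,
      (A.charpoly.map (Int.castRingHom ℂ)).IsRoot l ∧ 1 < ‖l‖) (hne : Λ.Nonempty) (P : ℝ)
    (hP : (2 * S.ncard ^ 2 : ℕ) ≤ P) :
    Real.log (bb (Real.exp (2 * ((∑ l ∈ Λ, Real.log ‖l‖) / P)))) / 3 ≤ rho S := by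
  classical
  obtain ⟨k, hk⟩ : ∃ k : G → ℤ, ∀ g, ∃ x ∈ N, g = t ^ k g * x := by
    choose k x hx hk using decomp hgen
    exact ⟨k, fun g => ⟨x g, hx g, hk g⟩⟩
  have hpair : ∀ l ∈ Λ, ∃ q : G × G, q ∈ pairs S hS ∧ (∃ s ∈ S, ∃ t ∈ S,
      (q.1 = s * t ∧ q.2 = t * s) ∨ (q.1 = s * s * t ∧ q.2 = s * t * s)) ∧ k q.1 ≠ 0 ∧
      ∀ u v : List Bool, u.length = v.length → ev q.1 q.2 u = ev q.1 q.2 v →
        dsm (l ^ k q.1) u = dsm (l ^ k q.1) v := by
    intro l hl
    obtain ⟨hroot, hl1⟩ := hΛ l hl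
    obtain ⟨hl0, φ, hw, hact⟩ := weight_with e hconj hk hroot
    have hkt : l ^ k t = l := by
      obtain ⟨a, ha⟩ := hw.ne
      have h1 := hw.act t a
      rw [hact a] at h1
      exact (mul_right_cancel₀ ha h1).symm
    have htor : ∀ m > 0, l ^ m ≠ 1 := by
      intro m hm h8
      have h9 := Complex.norm_eq_one_of_pow_eq_one h8 (by omega)
      linarith
    obtain ⟨s, hs, s', hs', X, Y, hXY, hX, hrel⟩ := hw.pair (comm_mem hgen) S hSg
      ⟨t, fun m hm => by show (l ^ k t) ^ m ≠ 1; rw [hkt]; exact htor m hm⟩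
    refine ⟨(X, Y), mem_pairs hS hs hs' hXY, ⟨s, hs, s', hs', hXY⟩, ?_, hrel⟩
    intro h0
    apply hX 1 Nat.one_pos
    show (l ^ k X) ^ 1 = 1
    rw [show k X = 0 from h0, zpow_zero, one_pow]
  choose! q hq1 hq2 hq3 hq4 using hpair
  have hlog : ∀ l ∈ Λ, 0 < Real.log ‖l‖ := fun l hl => Real.log_pos (hΛ l hl).2
  set σ := ∑ l ∈ Λ, Real.log ‖l‖ with hσ
  have hσpos : 0 < σ := Finset.sum_pos hlog hne
  obtain ⟨l0, hl0⟩ := hne
  have hPpos : 0 < P := by
    have h1 : 0 < (pairs S hS).card := Finset.card_pos.2 ⟨_, hq1 l0 hl0⟩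
    have h2 : (((pairs S hS).card : ℕ) : ℝ) ≤ P := by
      refine le_trans ?_ hP
      exact_mod_cast pairs_card S hS
    have h3 : (0 : ℝ) < ((pairs S hS).card : ℕ) := by exact_mod_cast h1
    linarith
  have hb0 : 0 < σ / P := div_pos hσpos hPpos
  obtain ⟨p, hp, hF⟩ := Finset.exists_le_sum_fiber_of_maps_to_of_nsmul_le_sum (s := Λ)
    (t := pairs S hS) (f := q) (w := fun l => Real.log ‖l‖) (b := σ / P)
    hq1 ⟨_, hq1 l0 hl0⟩ (by
      rw [nsmul_eq_mul, ← hσ, ← mul_div_assoc, div_le_iff₀ hPpos, mul_comm]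
      apply mul_le_mul_of_nonneg_left _ hσpos.le
      refine le_trans ?_ hP
      exact_mod_cast pairs_card S hS)
  set F := Λ.filter (fun l => q l = p) with hFdef
  have hFne : F.Nonempty := by
    rw [Finset.nonempty_iff_ne_empty]
    intro h0
    rw [h0, Finset.sum_empty] at hF
    linarith
  obtain ⟨l1, hl1⟩ := hFne
  obtain ⟨hl1Λ, hl1p⟩ := Finset.mem_filter.1 hl1
  obtain ⟨X, Y⟩ := p
  have hqX : ∀ l ∈ F, q l = (X, Y) := fun l hl => (Finset.mem_filter.1 hl).2
  have hkX : k X ≠ 0 := by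
    have := hq3 l1 hl1Λ
    rw [hl1p] at this
    exact this
  obtain ⟨s, hs, s', hs', hXY⟩ := hq2 l1 hl1Λ
  rw [hl1p] at hXY
  set m := (k X).natAbs with hm
  have hmpos : 0 < m := Int.natAbs_pos.2 hkX
  set T := F.image (fun l => l ^ m) with hT
  have hTnorm : ∀ μ ∈ T, 1 < ‖μ‖ := by
    intro μ hμ
    obtain ⟨l, hl, rfl⟩ := Finset.mem_image.1 hμ
    rw [norm_pow]
    exact one_lt_pow₀ (hΛ l (Finset.mem_filter.1 hl).1).2 hmpos.ne'
  have hinj : Function.Injective (fun μ : T => (μ : ℂ)) := Subtype.val_injective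
  have hx : ∀ μ : T, 1 < ‖(fun μ : T => (μ : ℂ)) μ‖ := fun μ => hTnorm μ μ.2
  have hrelF : ∀ l ∈ F, ∀ u v : List Bool, u.length = v.length → ev X Y u = ev X Y v →
      dsm (l ^ k X) u = dsm (l ^ k X) v := by
    intro l hl u v h1 h2
    have h3 := hq4 l (Finset.mem_filter.1 hl).1
    rw [hqX l hl] at h3
    exact h3 u v h1 h2
  have hcount : ∀ n : ℕ, (2 / (1 + W963.GE.al (fun μ : T => (μ : ℂ)))) ^ n ≤
      (Nat.card {z : G | ∃ w : List Bool, w.length = n ∧ z = ev X Y w} : ℝ) := by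
    intro n
    rcases Int.natAbs_eq (k X) with h | h
    · refine count_words _ hinj hx n (ev X Y) ?_
      rintro u v hu hv huv ⟨μ, hμ⟩
      obtain ⟨l, hl, rfl⟩ := Finset.mem_image.1 hμ
      have h1 := hrelF l hl u v (hu.trans hv.symm) huv
      rw [h, zpow_natCast] at h1
      exact h1
    · refine count_words_inv _ hinj hx n (ev X Y) ?_
      rintro u v hu hv huv ⟨μ, hμ⟩
      obtain ⟨l, hl, rfl⟩ := Finset.mem_image.1 hμ
      have h1 := hrelF l hl u v (hu.trans hv.symm) huv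
      rw [h, zpow_neg, zpow_natCast] at h1
      exact h1
  have hM : Real.exp (2 * (σ / P)) ≤ W963.GE.M2 (fun μ : T => (μ : ℂ)) := by
    have h1 : W963.GE.M2 (fun μ : T => (μ : ℂ)) = (∏ μ ∈ T, ‖μ‖) ^ 2 := by
      unfold W963.GE.M2
      rw [← Finset.prod_pow]
      exact Finset.prod_coe_sort T (fun μ => ‖μ‖ ^ 2)
    have h2 := prod_le_image F (fun l hl => (hΛ l (Finset.mem_filter.1 hl).1).2) hmpos
    rw [← hT] at h2
    have h3 : ∏ l ∈ F, ‖l‖ = Real.exp (∑ l ∈ F, Real.log ‖l‖) := by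
      rw [Real.exp_sum]
      refine Finset.prod_congr rfl fun l hl => ?_
      have := (hΛ l (Finset.mem_filter.1 hl).1).2
      rw [Real.exp_log (by linarith)]
    rw [h1, mul_comm, Real.exp_mul, Real.rpow_two]
    have h4 : Real.exp (σ / P) ≤ ∏ μ ∈ T, ‖μ‖ := by
      refine le_trans ?_ h2
      rw [h3]
      exact Real.exp_le_exp.2 hF
    exact pow_le_pow_left₀ (Real.exp_pos _).le h4 2
  have hbb : bb (Real.exp (2 * (σ / P))) ≤ 2 / (1 + W963.GE.al (fun μ : T => (μ : ℂ))) :=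
    bb_mono (Real.exp_pos _) hM
  have hcard : ∀ n : ℕ, (bb (Real.exp (2 * (σ / P)))) ^ n ≤ (Nat.card ↥(S ^ n) : ℝ) ^ 3 := by
    intro n
    have h1 := card_le_of_pair hS hs hs' hXY (ev X Y) n (fun u v _ _ he => he)
    have h2 : ((Nat.card {z : G | ∃ w : List Bool, w.length = n ∧ z = ev X Y w} : ℕ) : ℝ) ≤
        (Nat.card ↥(S ^ n) : ℝ) ^ 3 := by exact_mod_cast h1
    exact (pow_le_pow_left₀ (bb_pos _).le hbb n).trans ((hcount n).trans h2)
  refine ge_of_tendsto (tendsto_rho S) ?_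
  filter_upwards [eventually_gt_atTop 0] with n hn
  have h1 := hcard n
  have h3 : Real.log ((bb (Real.exp (2 * (σ / P)))) ^ n) ≤
      Real.log ((Nat.card ↥(S ^ n) : ℝ) ^ 3) :=
    Real.log_le_log (pow_pos (bb_pos _) n) h1
  rw [Real.log_pow, Real.log_pow] at h3
  have hn' : (0 : ℝ) < n := by exact_mod_cast hn
  rw [div_le_div_iff₀ (by norm_num) hn']
  push_cast at h3
  linarith

end

end Pool.Agent.Q262.UG
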