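import Pool.Agent.W963.GE.Final

/-!
# Mahler measures and growth rates of digit sums of powers
-/

set_option autoImplicit false
set_option linter.unusedSectionVars false

namespace Pool.Agent.Q262.UG

open Polynomial Filter Topology Pool.Agent.W963.GE
open Pool.Agent (H746UG.eta)

lemma norm_grid {N : ℕ} (hN : 0 < N) {ζ : ℂ} (h : ζ ∈ nthRootsFinset N (1:ℂ)) : ‖ζ‖ = 1 := by
  rw [mem_nthRootsFinset hN] at h
  exact Complex.norm_eq_one_of_pow_eq_one h hN.ne'

lemma mahler_X_pow_sub_C {p : ℕ} (hp : 0 < p) (a : ℂ) :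
    ((X : ℂ[X]) ^ p - C a).mahlerMeasure = (X - C a).mahlerMeasure := by
  obtain ⟨c, hc⟩ := IsAlgClosed.exists_pow_nat_eq a hp
  have hprim := Complex.isPrimitiveRoot_exp p hp.ne'
  have h0 : (X : ℂ[X]) ^ p - C (c ^ p) = ∏ ζ ∈ nthRootsFinset p (1:ℂ), (X - C (ζ * c)) := by
    apply Polynomial.funext
    intro x
    rw [eval_prod]
    simp only [eval_sub, eval_X, eval_C, eval_pow]
    exact hprim.pow_sub_pow_eq_prod_sub_mul x c hp
  rw [mahlerMeasure_X_sub_C, ← hc, h0, Finset.prod_eq_multiset_prod,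
    prod_mahlerMeasure_eq_mahlerMeasure_prod, Multiset.map_map]
  have h1 : (Multiset.map (mahlerMeasure ∘ fun ζ => X - C (ζ * c)) (nthRootsFinset p (1:ℂ)).val).prod
      = ∏ ζ ∈ nthRootsFinset p (1:ℂ), max 1 ‖c‖ := by
    rw [Finset.prod_eq_multiset_prod]
    congr 1
    refine Multiset.map_congr rfl fun ζ hζ => ?_
    rw [Function.comp_apply, mahlerMeasure_X_sub_C, norm_mul, norm_grid hp hζ, one_mul]
  rw [h1, Finset.prod_const, show (nthRootsFinset p (1:ℂ)).card = p from hprim.card_nthRootsFinset,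
    norm_pow]
  rcases le_total ‖c‖ 1 with h | h
  · rw [max_eq_left h, max_eq_left (pow_le_one₀ (norm_nonneg _) h), one_pow]
  · rw [max_eq_right h, max_eq_right (one_le_pow₀ h)]

lemma mahler_expand {p : ℕ} (hp : 0 < p) (g : ℂ[X]) :
    (expand ℂ p g).mahlerMeasure = g.mahlerMeasure := by
  have h1 := (IsAlgClosed.splits g).eq_prod_roots
  rw [h1, map_mul, expand_C, mahlerMeasure_mul, mahlerMeasure_mul, map_multiset_prod,
    prod_mahlerMeasure_eq_mahlerMeasure_prod, prod_mahlerMeasure_eq_mahlerMeasure_prod,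
    Multiset.map_map, Multiset.map_map, Multiset.map_map]
  congr 2
  refine Multiset.map_congr rfl fun a _ => ?_
  simp only [Function.comp_apply, map_sub, expand_X, expand_C]
  exact mahler_X_pow_sub_C hp a

lemma one_le_mahler {q : ℤ[X]} (hq : q ≠ 0) : 1 ≤ (q.map (Int.castRingHom ℂ)).mahlerMeasure := by
  apply one_le_mahlerMeasure_of_one_le_norm_leadingCoeff
  have h1 : (q.map (Int.castRingHom ℂ)).leadingCoeff = (q.leadingCoeff : ℂ) := by
    rw [leadingCoeff_map_of_injective (Int.castRingHom ℂ).injective_int]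
    rfl
  rw [h1, Complex.norm_intCast]
  have h2 : 1 ≤ |q.leadingCoeff| := Int.one_le_abs (leadingCoeff_ne_zero.2 hq)
  exact_mod_cast h2

lemma MM_le_of_root {P : ℤ[X]} (hP : P ≠ 0) {x : ℂ} (hx : IsIntegral ℤ x) (h : aeval x P = 0) :
    MM x ≤ (P.map (Int.castRingHom ℂ)).mahlerMeasure := by
  obtain ⟨q, hq⟩ := minpoly.isIntegrallyClosed_dvd hx h
  have hq0 : q ≠ 0 := by
    rintro rfl
    apply hP
    rw [hq, mul_zero]
  rw [hq, Polynomial.map_mul, mahlerMeasure_mul]
  have h1 := one_le_mahler hq0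
  have h2 : 0 ≤ ((minpoly ℤ x).map (Int.castRingHom ℂ)).mahlerMeasure := mahlerMeasure_nonneg _
  show ((minpoly ℤ x).map (Int.castRingHom ℂ)).mahlerMeasure ≤ _
  nlinarith

lemma MM_le_pow {x : ℂ} (hx : IsIntegral ℤ x) {b : ℕ} (hb : 0 < b) : MM x ≤ MM (x ^ b) := by
  have hy : IsIntegral ℤ (x ^ b) := hx.pow b
  have h1 : aeval x (expand ℤ b (minpoly ℤ (x ^ b))) = 0 := by
    rw [expand_aeval, minpoly.aeval]
  have h0 : expand ℤ b (minpoly ℤ (x ^ b)) ≠ 0 := by
    rw [Ne, expand_eq_zero hb]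
    exact minpoly.ne_zero hy
  have h2 := MM_le_of_root h0 hx h1
  rw [map_expand, mahler_expand hb] at h2
  exact h2

lemma norm_le_MM {x : ℂ} (hx : IsIntegral ℤ x) : ‖x‖ ≤ MM x := by
  have hm : ((minpoly ℤ x).map (Int.castRingHom ℂ)).Monic := (minpoly.monic hx).map _
  have h1 := mahlerMeasure_eq_leadingCoeff_mul_prod_roots ((minpoly ℤ x).map (Int.castRingHom ℂ))
  rw [hm.leadingCoeff, norm_one, one_mul] at h1
  show ‖x‖ ≤ ((minpoly ℤ x).map (Int.castRingHom ℂ)).mahlerMeasure
  rw [h1]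
  have hmem : x ∈ ((minpoly ℤ x).map (Int.castRingHom ℂ)).roots := by
    rw [mem_roots hm.ne_zero, IsRoot.def, eval_map]
    have := minpoly.aeval ℤ x
    rw [aeval_def] at this
    exact this
  obtain ⟨s, hs⟩ := Multiset.exists_cons_of_mem hmem
  rw [hs, Multiset.map_cons, Multiset.prod_cons]
  have h2 : 1 ≤ (s.map fun a => max 1 ‖a‖).prod := by
    induction s using Multiset.induction_on with
    | empty => simp
    | cons a s ih =>
      rw [Multiset.map_cons, Multiset.prod_cons]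
      have h3 : ∀ s : Multiset ℂ, 1 ≤ (s.map fun a => max 1 ‖a‖).prod := by
        intro s
        induction s using Multiset.induction_on with
        | empty => simp
        | cons a s ih =>
          rw [Multiset.map_cons, Multiset.prod_cons]
          exact one_le_mul_of_one_le_of_one_le (le_max_left _ _) ih
      exact one_le_mul_of_one_le_of_one_le (le_max_left _ _) (h3 s)
  have h3 : ‖x‖ ≤ max 1 ‖x‖ := le_max_right _ _
  have h4 := norm_nonneg x
  nlinarith [le_max_left 1 ‖x‖]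

lemma card_DS_inv {x : ℂ} (hx : x ≠ 0) (n : ℕ) :
    Nat.card (H746UG.DS x⁻¹ n) = Nat.card (H746UG.DS x n) := by
  have h0 : x⁻¹ ^ n * x ≠ 0 := mul_ne_zero (pow_ne_zero _ (inv_ne_zero hx)) hx
  have h1 : H746UG.DS x⁻¹ n = (fun z => x⁻¹ ^ n * x * z) '' H746UG.DS x n := by
    ext z
    constructor
    · rintro ⟨w, hw, rfl⟩
      refine ⟨H746UG.dsm x w.reverse, ⟨w.reverse, by rw [List.length_reverse, hw], rfl⟩, ?_⟩
      have := H746UG.dsm_reverse x hx w.reverse
      rw [List.reverse_reverse, List.length_reverse, hw] at this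
      exact this.symm
    · rintro ⟨_, ⟨w, hw, rfl⟩, rfl⟩
      refine ⟨w.reverse, by rw [List.length_reverse, hw], ?_⟩
      have := H746UG.dsm_reverse x hx w
      rw [hw] at this
      exact this.symm
  rw [h1]
  exact Nat.card_image_of_injective (mul_right_injective₀ h0) _

lemma eta_inv {x : ℂ} (hx : x ≠ 0) : H746UG.eta x⁻¹ = H746UG.eta x := by
  refine tendsto_nhds_unique (H746UG.tendsto_eta x⁻¹ (inv_ne_zero hx)) ?_
  have h := H746UG.tendsto_eta x hx
  have e : ∀ n, Nat.card ↥(H746UG.digitSums x⁻¹ n) = Nat.card ↥(H746UG.digitSums x n) := by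
    intro n
    rw [← H746UG.DS_eq_digitSums, ← H746UG.DS_eq_digitSums]
    exact card_DS_inv hx n
  simp only [e]
  exact h

/-- the growth of the digit sums of a nontrivial power is at least that given by `M(x)` -/
lemma eta_zpow_ge {x : ℂ} (hx0 : x ≠ 0) (hx : IsIntegral ℤ x) {b : ℤ} (hb : b ≠ 0) :
    Real.log (base (MM x)) ≤ H746UG.eta (x ^ b) := by
  have key : ∀ k : ℕ, 0 < k → Real.log (base (MM x)) ≤ H746UG.eta (x ^ k) := by
    intro k hk
    refine le_trans ?_ (eta_ge (x ^ k) (pow_ne_zero _ hx0) (hx.pow k))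
    exact Real.log_le_log (base_pos _) (base_mono (MM_ge x hx) (MM_le_pow hx hk))
  rcases Int.natAbs_eq b with h | h
  · rw [h, zpow_natCast]
    exact key _ (Int.natAbs_pos.2 hb)
  · rw [h, zpow_neg, zpow_natCast, eta_inv (pow_ne_zero _ hx0)]
    exact key _ (Int.natAbs_pos.2 hb)

end Pool.Agent.Q262.UG
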