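import Pool.Agent.Q262.UG.Rate
import Pool.Agent.Q262.UG.Pow

/-!
# Extensions of free abelian groups by cyclic groups
-/

set_option autoImplicit false
set_option linter.unusedSectionVars false

namespace Pool.Agent.Q262.UG

open Subgroup Pool.Agent.H746UG Polynomial
open scoped IsMulCommutative commutatorElement Pointwise

variable {G : Type*} [Group G]

section
variable {N : Subgroup G} [N.Normal] {t : G}

/-- every element is a power of `t` times an element of `N` -/
lemma decomp (hgen : closure (insert t (N : Set G)) = ⊤) (g : G) :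
    ∃ k : ℤ, ∃ x ∈ N, g = t ^ k * x := by
  have hg : g ∈ closure (insert t (N : Set G)) := by rw [hgen]; trivial
  induction hg using closure_induction with
  | mem x hx =>
    rcases hx with rfl | hx
    · exact ⟨1, 1, one_mem _, by simp⟩
    · exact ⟨0, x, hx, by simp⟩
  | one => exact ⟨0, 1, one_mem _, by simp⟩
  | mul x y _ _ hx hy =>
    obtain ⟨k, a, ha, rfl⟩ := hx
    obtain ⟨l, b, hb, rfl⟩ := hy
    refine ⟨k + l, t ^ (-l) * a * (t ^ (-l))⁻¹ * b,
      mul_mem (Normal.conj_mem inferInstance a ha _) hb, ?_⟩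
    rw [zpow_add, zpow_neg]; group
  | inv x _ hx =>
    obtain ⟨k, a, ha, rfl⟩ := hx
    refine ⟨-k, t ^ k * a⁻¹ * (t ^ k)⁻¹, Normal.conj_mem inferInstance _ (inv_mem ha) _, ?_⟩
    rw [zpow_neg]; group

lemma comm_mem (hgen : closure (insert t (N : Set G)) = ⊤) (g h : G) :
    g * h * g⁻¹ * h⁻¹ ∈ N := by
  obtain ⟨k, a, ha, rfl⟩ := decomp hgen g
  obtain ⟨l, b, hb, rfl⟩ := decomp hgen h
  rw [← QuotientGroup.eq_one_iff]
  have h1 : ∀ (m : ℤ) (c : G), c ∈ N → (QuotientGroup.mk (t ^ m * c) : G ⧸ N) =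
      (QuotientGroup.mk t : G ⧸ N) ^ m := by
    intro m c hc
    rw [QuotientGroup.mk_mul, (QuotientGroup.eq_one_iff c).2 hc, mul_one, QuotientGroup.mk_zpow]
  rw [QuotientGroup.mk_mul, QuotientGroup.mk_mul, QuotientGroup.mk_mul, QuotientGroup.mk_inv,
    QuotientGroup.mk_inv, h1 k a ha, h1 l b hb, ← zpow_add, ← zpow_neg, ← zpow_neg, ← zpow_add,
    ← zpow_add]
  have : k + l + -k + -l = 0 := by ring
  rw [this, zpow_zero]

lemma isComm_of_equiv {V : Type*} [AddCommGroup V] (e : Additive N ≃+ V) : IsMulCommutative N := by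
  refine ⟨⟨fun x y => ?_⟩⟩
  have h1 : e (Additive.ofMul (x * y)) = e (Additive.ofMul (y * x)) := by
    rw [ofMul_mul, ofMul_mul, map_add, map_add, add_comm]
  exact Additive.ofMul.injective (e.injective h1)

end

section
variable {N : Subgroup G} [N.Normal] [hN : IsMulCommutative N] {t : G} {n : ℕ}
  {A : Matrix (Fin n) (Fin n) ℤ} (e : Additive N ≃+ (Fin n → ℤ))
  (hgen : closure (insert t (N : Set G)) = ⊤) (hconj : ∀ a, e (th N t a) = A.mulVec (e a))

/-- the functional of a vector -/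
noncomputable def functional (u : Fin n → ℂ) : Additive N →+ ℂ where
  toFun a := ∑ i, u i * ((e a i : ℤ) : ℂ)
  map_zero' := by simp
  map_add' a b := by
    simp only [map_add, Pi.add_apply, Int.cast_add, mul_add, Finset.sum_add_distrib]

include hconj in
lemma functional_act (u : Fin n → ℂ) (l : ℂ)
    (hu : Matrix.vecMul u (A.map (Int.castRingHom ℂ)) = l • u) (a : Additive N) :
    functional e u (th N t a) = l * functional e u a := by
  show ∑ i, u i * ((e (th N t a) i : ℤ) : ℂ) = l * ∑ i, u i * ((e a i : ℤ) : ℂ)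
  rw [hconj]
  have h1 : ∀ j, ∑ i, u i * (A i j : ℂ) = l * u j := by
    intro j
    have := congrFun hu j
    simpa [Matrix.vecMul, dotProduct] using this
  simp only [Matrix.mulVec, dotProduct, Int.cast_sum, Int.cast_mul, Finset.mul_sum]
  rw [Finset.sum_comm]
  refine Finset.sum_congr rfl fun j _ => ?_
  rw [← mul_assoc, ← h1 j, Finset.sum_mul]
  refine Finset.sum_congr rfl fun i _ => ?_
  ring

include hgen hconj in
/-- every complex eigenvalue of `A` gives a weight -/
theorem exists_weight {l : ℂ} (hl : (A.charpoly.map (Int.castRingHom ℂ)).IsRoot l) :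
    l ≠ 0 ∧ ∃ (φ : Additive N →+ ℂ) (k : G → ℤ), IsWeight N φ (fun g => l ^ k g) ∧
      (∀ a, φ (th N t a) = l * φ a) := by
  classical
  have hdet : (l • (1 : Matrix (Fin n) (Fin n) ℂ) - A.map (Int.castRingHom ℂ)).det = 0 := by
    have h1 : A.charpoly.map (Int.castRingHom ℂ) = (A.map (Int.castRingHom ℂ)).charpoly :=
      (Matrix.charpoly_map A (Int.castRingHom ℂ)).symm
    rw [h1, IsRoot.def, Matrix.eval_charpoly] at hl
    rw [← hl]
    congr 1
    ext i j
    simp [Matrix.scalar_apply, Matrix.one_apply, Matrix.diagonal_apply]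
  obtain ⟨u, hu0, hu⟩ := Matrix.exists_vecMul_eq_zero_iff.2 hdet
  have hu' : Matrix.vecMul u (A.map (Int.castRingHom ℂ)) = l • u := by
    rw [Matrix.vecMul_sub, Matrix.vecMul_smul, Matrix.vecMul_one, sub_eq_zero] at hu
    exact hu.symm
  set φ := functional e u with hφ
  have hact := functional_act e hconj u l hu'
  rw [← hφ] at hact
  have hne : ∃ a, φ a ≠ 0 := by
    obtain ⟨i, hi⟩ := Function.ne_iff.1 hu0
    refine ⟨e.symm (Pi.single i 1), ?_⟩
    show ∑ j, u j * ((e (e.symm (Pi.single i 1)) j : ℤ) : ℂ) ≠ 0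
    rw [e.apply_symm_apply, Finset.sum_eq_single i]
    · simpa using hi
    · intro j _ hj
      rw [Pi.single_eq_of_ne hj]; simp
    · intro h; exact absurd (Finset.mem_univ i) h
  have hl0 : l ≠ 0 := by
    rintro rfl
    obtain ⟨a, ha⟩ := hne
    apply ha
    have h1 := hact (th N t⁻¹ a)
    rw [← th_mul_apply, mul_inv_cancel, map_one, zero_mul] at h1
    exact h1
  have hinv : ∀ a, φ (th N t⁻¹ a) = l⁻¹ * φ a := by
    intro a
    have h1 := hact (th N t⁻¹ a)
    rw [← th_mul_apply, mul_inv_cancel, map_one] at h1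
    have h2 : φ a = l * φ (th N t⁻¹ a) := h1
    rw [h2, inv_mul_cancel_left₀ hl0]
  have hnat : ∀ (m : ℕ) (s : G) (c : ℂ), (∀ a, φ (th N s a) = c * φ a) →
      ∀ a, φ (th N (s ^ m) a) = c ^ m * φ a := by
    intro m s c hs
    induction m with
    | zero => intro a; rw [pow_zero, pow_zero, map_one]; simp
    | succ m ih =>
      intro a
      rw [pow_succ, th_mul_apply, ih, hs, pow_succ]; ring
  have hz : ∀ (k : ℤ) a, φ (th N (t ^ k) a) = l ^ k * φ a := by
    intro k a
    rcases Int.natAbs_eq k with h | h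
    · rw [h, zpow_natCast, zpow_natCast]
      exact hnat _ t l hact a
    · rw [h, zpow_neg, zpow_natCast, zpow_neg, zpow_natCast, ← inv_pow, ← inv_pow]
      exact hnat _ t⁻¹ l⁻¹ hinv a
  have hdec : ∀ g : G, ∃ k : ℤ, ∃ x ∈ N, g = t ^ k * x := decomp hgen
  choose k x hx hk using hdec
  refine ⟨hl0, φ, k, ⟨hne, ?_⟩, hact⟩
  intro g a
  conv_lhs => rw [hk g]
  rw [th_mul_apply, hz, th_of_mem (hx g)]
  rfl

/-- complex roots of the characteristic polynomial are algebraic integers -/
lemma isIntegral_of_root {A : Matrix (Fin n) (Fin n) ℤ} {l : ℂ}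
    (hl : (A.charpoly.map (Int.castRingHom ℂ)).IsRoot l) : IsIntegral ℤ l := by
  refine ⟨A.charpoly, A.charpoly_monic, ?_⟩
  rw [IsRoot.def, eval_map] at hl
  exact hl

include e hgen hconj in
/-- the growth rate is bounded below by the Mahler measure of every eigenvalue -/
theorem rho_ge_eig (S : Set G) (hS : S.Finite) (hSg : closure S = ⊤) {l : ℂ}
    (hl : (A.charpoly.map (Int.castRingHom ℂ)).IsRoot l) (htor : ∀ m > 0, l ^ m ≠ 1) :
    Real.log (W963.GE.base (W963.GE.MM l)) / 3 ≤ rho S := by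
  obtain ⟨hl0, φ, k, hw, hact⟩ := exists_weight e hgen hconj hl
  have hkt : l ^ k t = l := by
    obtain ⟨a, ha⟩ := hw.ne
    have h1 := hw.act t a
    rw [hact a] at h1
    exact (mul_right_cancel₀ ha h1).symm
  obtain ⟨s, hs, s', hs', X, Y, hXY, hX, hrel⟩ := hw.pair (comm_mem hgen) S hSg
    ⟨t, fun m hm => by show (l ^ k t) ^ m ≠ 1; rw [hkt]; exact htor m hm⟩
  have hkX : k X ≠ 0 := by
    intro h0
    apply hX 1 Nat.one_pos
    show (l ^ k X) ^ 1 = 1
    rw [h0, zpow_zero, one_pow]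
  have hli := isIntegral_of_root hl
  have hcard : ∀ n, Nat.card ↥(digitSums (l ^ k X) n) ≤ Nat.card ↥(S ^ n) ^ 3 := by
    intro n
    rw [← DS_eq_digitSums]
    exact card_le_of_pair hS hs hs' hXY (dsm (l ^ k X)) n
      (fun u v hu hv he => hrel u v (hu.trans hv.symm) he)
  have h1 := eta_le_rho S (l ^ k X) (zpow_ne_zero _ hl0) hcard
  have h2 := eta_zpow_ge hl0 hli hkX
  linarith

end

end Pool.Agent.Q262.UG
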