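import Mathlib

/-!
# The number of eigenvalues outside the unit disc
-/

set_option autoImplicit false
set_option linter.unusedSectionVars false

namespace Pool.Agent.Q262.UG

open Polynomial Filter Topology Module

section
variable {V : Type*} [NormedAddCommGroup V] [NormedSpace ℂ V]

/-- the vectors with a backward orbit tending to zero -/
def good (f : Module.End ℂ V) : Submodule ℂ V where
  carrier := {x | ∃ y : ℕ → V, Tendsto y atTop (𝓝 0) ∧ ∀ k, (f ^ k) (y k) = x}
  add_mem' := by
    rintro a b ⟨y, hy, hy'⟩ ⟨z, hz, hz'⟩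
    refine ⟨fun k => y k + z k, by simpa using hy.add hz, fun k => ?_⟩
    rw [map_add, hy', hz']
  zero_mem' := ⟨fun _ => 0, tendsto_const_nhds, fun k => map_zero _⟩
  smul_mem' := by
    rintro c a ⟨y, hy, hy'⟩
    refine ⟨fun k => c • y k, by simpa using hy.const_smul c, fun k => ?_⟩
    rw [map_smul, hy']

/-- a perturbed contraction on the real line -/
lemma tendsto_of_rec {a ε : ℕ → ℝ} {q : ℝ} (hq0 : 0 ≤ q) (hq : q < 1) (ha : ∀ k, 0 ≤ a k)
    (hε : Tendsto ε atTop (𝓝 0)) (h : ∀ k, a (k + 1) ≤ q * a k + ε k) :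
    Tendsto a atTop (𝓝 0) := by
  rw [Metric.tendsto_atTop]
  intro δ hδ
  have h1q : 0 < 1 - q := by linarith
  obtain ⟨N, hN⟩ := (Metric.tendsto_atTop.1 hε) (δ * (1 - q) / 2) (by positivity)
  have hε' : ∀ k ≥ N, ε k ≤ δ * (1 - q) / 2 := by
    intro k hk
    have h2 := hN k hk
    rw [Real.dist_eq, sub_zero] at h2
    exact (le_abs_self _).trans h2.le
  -- `a (N + j) ≤ q ^ j a N + δ / 2`
  have h3 : ∀ j, a (N + j) ≤ q ^ j * a N + δ / 2 := by
    intro j
    induction j with
    | zero => simp only [pow_zero, one_mul, add_zero]; linarith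
    | succ j ih =>
      have h4 := h (N + j)
      have h5 := hε' (N + j) (by omega)
      have h6 : q * a (N + j) ≤ q * (q ^ j * a N + δ / 2) := mul_le_mul_of_nonneg_left ih hq0
      rw [← add_assoc, pow_succ]
      nlinarith
  have h7 : Tendsto (fun j => q ^ j * a N) atTop (𝓝 0) := by
    have := (tendsto_pow_atTop_nhds_zero_of_lt_one hq0 hq).mul_const (a N)
    rwa [zero_mul] at this
  obtain ⟨K, hK⟩ := (Metric.tendsto_atTop.1 h7) (δ / 2) (by positivity)
  refine ⟨N + K, fun m hm => ?_⟩
  obtain ⟨j, rfl⟩ := Nat.exists_eq_add_of_le (show N ≤ m by omega)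
  have h8 := hK j (by omega)
  rw [Real.dist_eq, sub_zero] at h8 ⊢
  rw [abs_of_nonneg (ha _)]
  have h9 := h3 j
  have h10 := le_abs_self (q ^ j * a N)
  linarith

lemma ker_le_good (f : Module.End ℂ V) {l : ℂ} (hl : 1 < ‖l‖) :
    ∀ (m : ℕ) (x : V), ((f - l • (1 : Module.End ℂ V)) ^ m) x = 0 → x ∈ good f := by
  intro m
  induction m with
  | zero => intro x hx; rw [pow_zero] at hx; rw [show x = 0 from hx]; exact (good f).zero_mem
  | succ m ih =>
    intro x hx
    have hl0 : l ≠ 0 := by
      rintro rfl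
      rw [norm_zero] at hl
      linarith
    set z := (f - l • (1 : Module.End ℂ V)) x with hz
    have hz1 : z ∈ good f := by
      apply ih
      rw [pow_succ] at hx
      exact hx
    obtain ⟨y, hy, hy'⟩ := hz1
    have hfx : f x = l • x + z := by
      rw [hz, LinearMap.sub_apply, LinearMap.smul_apply, Module.End.one_apply]
      abel
    let a : ℕ → V := fun k => Nat.rec x (fun k b => l⁻¹ • (b - y (k + 1))) k
    have ha0 : a 0 = x := rfl
    have ha1 : ∀ k, a (k + 1) = l⁻¹ • (a k - y (k + 1)) := fun k => rfl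
    refine ⟨a, ?_, ?_⟩
    · rw [tendsto_zero_iff_norm_tendsto_zero]
      refine tendsto_of_rec (q := ‖l‖⁻¹) (ε := fun k => ‖l‖⁻¹ * ‖y (k + 1)‖) (by positivity)
        (inv_lt_one_of_one_lt₀ hl) (fun k => norm_nonneg _) ?_ ?_
      · have h1 := (tendsto_norm_zero.comp (hy.comp (tendsto_add_atTop_nat 1))).const_mul ‖l‖⁻¹
        rw [mul_zero] at h1
        exact h1
      · intro k
        rw [ha1, norm_smul, norm_inv, ← mul_add]
        exact mul_le_mul_of_nonneg_left (norm_sub_le _ _) (by positivity)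
    · intro k
      induction k with
      | zero => rw [pow_zero, ha0]; rfl
      | succ k ihk =>
        have h1 : (f ^ (k + 1)) (a k) = f x := by
          rw [pow_succ', Module.End.mul_apply, ihk]
        rw [ha1, map_smul, map_sub, h1, hy', hfx, add_sub_cancel_right, smul_smul,
          inv_mul_cancel₀ hl0, one_smul]

lemma sum_finrank_le [FiniteDimensional ℂ V] (f : Module.End ℂ V) (s : Finset ℂ)
    (W : Submodule ℂ V) (h : ∀ l ∈ s, f.maxGenEigenspace l ≤ W) :
    ∑ l ∈ s, finrank ℂ (f.maxGenEigenspace l) ≤ finrank ℂ W := by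
  classical
  have h1 : ∀ s : Finset ℂ, finrank ℂ (⨆ l ∈ (s : Set ℂ), f.maxGenEigenspace l : Submodule ℂ V) =
      ∑ l ∈ s, finrank ℂ (f.maxGenEigenspace l) := by
    intro s
    induction s using Finset.induction_on with
    | empty => simp
    | insert a s ha ih =>
      rw [Finset.sum_insert ha, ← ih, Finset.coe_insert, iSup_insert]
      have h2 : Disjoint (f.maxGenEigenspace a) (⨆ l ∈ (s : Set ℂ), f.maxGenEigenspace l) :=
        f.independent_maxGenEigenspace.disjoint_biSup (by simpa using ha)
      have h3 := Submodule.finrank_sup_add_finrank_inf_eq (f.maxGenEigenspace a)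
        (⨆ l ∈ (s : Set ℂ), f.maxGenEigenspace l)
      rw [h2.eq_bot, finrank_bot, add_zero] at h3
      exact h3
  rw [← h1]
  exact Submodule.finrank_mono (iSup₂_le fun l hl => h l hl)

/-- the number of eigenvalues outside the unit disc is bounded by the codimension of a positive
subspace for a function which does not increase -/
theorem card_outside [FiniteDimensional ℂ V] (f : Module.End ℂ V) (H : V → ℝ)
    (hcont : Continuous H) (H0 : H 0 = 0) (hH : ∀ x, H (f x) ≤ H x) {r : ℕ}
    (ℓ : V →ₗ[ℂ] (Fin r → ℂ)) (hpos : ∀ x, x ≠ 0 → ℓ x = 0 → 0 < H x) :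
    (f.charpoly.roots.filter fun l => 1 < ‖l‖).card ≤ r := by
  classical
  have hpow : ∀ (k : ℕ) x, H ((f ^ k) x) ≤ H x := by
    intro k
    induction k with
    | zero => intro x; rw [pow_zero]; exact le_rfl
    | succ k ih =>
      intro x
      rw [pow_succ', Module.End.mul_apply]
      exact (hH _).trans (ih x)
  have hgood : ∀ x ∈ good f, H x ≤ 0 := by
    rintro x ⟨y, hy, hy'⟩
    have h1 : Tendsto (fun k => H (y k)) atTop (𝓝 0) := by
      have := (hcont.tendsto 0).comp hy
      rw [H0] at this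
      exact this
    refine ge_of_tendsto' h1 fun k => ?_
    calc H x = H ((f ^ k) (y k)) := by rw [hy']
      _ ≤ H (y k) := hpow k _
  have hfin : finrank ℂ (good f) ≤ r := by
    have hinj : Function.Injective (ℓ.domRestrict (good f)) := by
      rw [injective_iff_map_eq_zero]
      rintro ⟨x, hx⟩ h
      have h2 : ℓ x = 0 := h
      by_contra hne
      have h3 : x ≠ 0 := fun h0 => hne (Subtype.ext h0)
      exact absurd (hpos x h3 h2) (not_lt.2 (hgood x hx))
    have := LinearMap.finrank_le_finrank_of_injective hinj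
    simpa using this
  refine le_trans ?_ hfin
  set R := f.charpoly.roots with hR
  set F := R.filter fun l => 1 < ‖l‖ with hF
  rw [← Multiset.toFinset_sum_count_eq F]
  have h1 : ∀ l ∈ F.toFinset, F.count l = finrank ℂ (f.maxGenEigenspace l) := by
    intro l hl
    rw [Multiset.mem_toFinset, hF, Multiset.mem_filter] at hl
    rw [hF, Multiset.count_filter_of_pos (p := fun l : ℂ => 1 < ‖l‖) hl.2, hR, count_roots,
      LinearMap.finrank_maxGenEigenspace_eq]
  rw [Finset.sum_congr rfl h1]
  apply sum_finrank_le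
  intro l hl x hx
  rw [Multiset.mem_toFinset, hF, Multiset.mem_filter] at hl
  rw [Module.End.mem_maxGenEigenspace] at hx
  obtain ⟨k, hk⟩ := hx
  exact ker_le_good f hl.2 k x hk

end

/-- a product over roots is bounded by the number of roots outside the unit disc -/
lemma prod_le_pow (s : Multiset ℂ) {ρ : ℝ} (hρ : 1 ≤ ρ) (h : ∀ a ∈ s, ‖a‖ ≤ ρ) :
    (s.map fun a => max 1 ‖a‖).prod ≤ ρ ^ (s.filter fun l => 1 < ‖l‖).card := by
  classical
  induction s using Multiset.induction_on with
  | empty => simp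
  | cons a s ih =>
    have h1 := ih fun b hb => h b (Multiset.mem_cons_of_mem hb)
    have h2 := h a (Multiset.mem_cons_self a s)
    have h0 : 0 ≤ (s.map fun a => max 1 ‖a‖).prod := by
      apply Multiset.prod_nonneg
      intro x hx
      obtain ⟨b, _, rfl⟩ := Multiset.mem_map.1 hx
      exact zero_le_one.trans (le_max_left _ _)
    rw [Multiset.map_cons, Multiset.prod_cons]
    by_cases ha : 1 < ‖a‖
    · rw [Multiset.filter_cons_of_pos (p := fun l : ℂ => 1 < ‖l‖) _ ha, Multiset.card_cons, pow_succ, mul_comm,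
        max_eq_right ha.le]
      exact mul_le_mul h1 h2 (norm_nonneg _) (by positivity)
    · rw [Multiset.filter_cons_of_neg (p := fun l : ℂ => 1 < ‖l‖) _ ha, max_eq_left (not_lt.1 ha), one_mul]
      exact h1

/-- a monic polynomial with a large Mahler measure and few zeros outside the unit disc has a large
zero -/
lemma exists_large_root {p : ℂ[X]} (hp : p.Monic) {r : ℕ} {ρ μ : ℝ} (hρ : 1 ≤ ρ)
    (hμ : ρ ^ r < μ) (hM : μ ≤ p.mahlerMeasure)
    (hr : (p.roots.filter fun l => 1 < ‖l‖).card ≤ r) : ∃ l, p.IsRoot l ∧ ρ < ‖l‖ := by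
  by_contra hcon
  push Not at hcon
  have h1 := mahlerMeasure_eq_leadingCoeff_mul_prod_roots p
  rw [hp.leadingCoeff, norm_one, one_mul] at h1
  have h2 := prod_le_pow p.roots hρ (fun a ha => hcon a (isRoot_of_mem_roots ha))
  have h3 : ρ ^ (p.roots.filter fun l => 1 < ‖l‖).card ≤ ρ ^ r := pow_le_pow_right₀ hρ hr
  linarith

end Pool.Agent.Q262.UG
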