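import Pool.Agent.Q262.UG.Nil
import Pool.Agent.Q262.UG.Sig
import Pool.Agent.Q262.FR.Own

/-!
# Growth gap for extensions by isometries of indefinite lattices
-/

set_option autoImplicit false
set_option linter.unusedSectionVars false

namespace Pool.Agent.Q262.UG

open Polynomial Filter Topology Module Q262.FR
open Pool.Agent.H261R2.CM Pool.Agent.W963.GE
open scoped Pointwise

variable {n r : ℕ}

/-- the Hermitian extension of the form -/
noncomputable def herm (G : Matrix (Fin n) (Fin n) ℤ) (x : Fin n → ℂ) : ℝ :=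
  bil G (fun i => (x i).re) (fun i => (x i).re) + bil G (fun i => (x i).im) (fun i => (x i).im)

lemma herm_continuous (G : Matrix (Fin n) (Fin n) ℤ) : Continuous (herm G) := by
  unfold herm bil
  fun_prop

lemma herm_zero (G : Matrix (Fin n) (Fin n) ℤ) : herm G 0 = 0 := by
  simp [herm, bil]

lemma re_toLin (A : Matrix (Fin n) (Fin n) ℤ) (x : Fin n → ℂ) :
    (fun i => (Matrix.toLin' (A.map (Int.castRingHom ℂ)) x i).re) = img A (fun i => (x i).re) := by
  funext i
  simp [img, Matrix.mulVec, dotProduct]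

lemma im_toLin (A : Matrix (Fin n) (Fin n) ℤ) (x : Fin n → ℂ) :
    (fun i => (Matrix.toLin' (A.map (Int.castRingHom ℂ)) x i).im) = img A (fun i => (x i).im) := by
  funext i
  simp [img, Matrix.mulVec, dotProduct]

/-- the complex linear functionals given by lattice vectors -/
noncomputable def lat (G : Matrix (Fin n) (Fin n) ℤ) (v : Fin r → Fin n → ℤ) :
    (Fin n → ℂ) →ₗ[ℂ] (Fin r → ℂ) :=
  Matrix.toLin' (Matrix.of fun k j => ∑ i, (G i j : ℂ) * (v k i : ℂ))

lemma bil_comb (G : Matrix (Fin n) (Fin n) ℤ) (v : Fin r → Fin n → ℤ) (c : Fin r → ℝ)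
    (x : Fin n → ℝ) : bil G (comb v c) x = ∑ k, c k * bil G (fun i => (v k i : ℝ)) x := by
  simp only [bil, comb, Finset.mul_sum, Finset.sum_mul]
  rw [Finset.sum_congr rfl fun i _ => Finset.sum_comm, Finset.sum_comm]
  refine Finset.sum_congr rfl fun k _ => Finset.sum_congr rfl fun i _ =>
    Finset.sum_congr rfl fun j _ => ?_
  ring

lemma lat_re (G : Matrix (Fin n) (Fin n) ℤ) (v : Fin r → Fin n → ℤ) (x : Fin n → ℂ) (k : Fin r) :
    (lat G v x k).re = bil G (fun i => (v k i : ℝ)) (fun j => (x j).re) ∧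
    (lat G v x k).im = bil G (fun i => (v k i : ℝ)) (fun j => (x j).im) := by
  have h1 : lat G v x k = ∑ i, ∑ j, ((G i j : ℝ) * (v k i : ℝ) : ℝ) * x j := by
    simp only [lat, Matrix.toLin'_apply, Matrix.mulVec, dotProduct, Matrix.of_apply,
      Finset.sum_mul]
    rw [Finset.sum_comm]
    refine Finset.sum_congr rfl fun i _ => Finset.sum_congr rfl fun j _ => ?_
    push_cast
    ring
  rw [h1]
  constructor
  · simp only [Complex.re_sum, Complex.re_ofReal_mul, bil]
  · simp only [Complex.im_sum, Complex.im_ofReal_mul, bil]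

/-- a nonincreasing matrix has at most `r` eigenvalues outside the unit disc -/
theorem card_outside_le (G A : Matrix (Fin n) (Fin n) ℤ) (v : Fin r → Fin n → ℤ)
    (hpos : ∀ x : Fin n → ℝ, x ≠ 0 → (∀ c, bil G (comb v c) x = 0) → 0 < bil G x x)
    (hA : ∀ x : Fin n → ℝ, bil G (img A x) (img A x) ≤ bil G x x) :
    ((A.charpoly.map (Int.castRingHom ℂ)).roots.filter fun l => 1 < ‖l‖).card ≤ r := by
  have h1 : A.charpoly.map (Int.castRingHom ℂ) =
      (Matrix.toLin' (A.map (Int.castRingHom ℂ))).charpoly := by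
    rw [Matrix.charpoly_toLin', Matrix.charpoly_map]
  rw [h1]
  have hbil0 : bil G 0 0 = 0 := by simp [bil]
  refine card_outside (V := Fin n → ℂ) _ (herm G) (herm_continuous G) (herm_zero G) ?_ (lat G v) ?_
  · intro x
    unfold herm
    rw [re_toLin, im_toLin]
    exact add_le_add (hA _) (hA _)
  · intro x hx hl
    have h2 : ∀ k, bil G (fun i => (v k i : ℝ)) (fun j => (x j).re) = 0 ∧
        bil G (fun i => (v k i : ℝ)) (fun j => (x j).im) = 0 := by
      intro k
      obtain ⟨h3, h4⟩ := lat_re G v x k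
      rw [← h3, ← h4, hl]
      exact ⟨rfl, rfl⟩
    have h3 : ∀ c, bil G (comb v c) (fun j => (x j).re) = 0 := by
      intro c
      rw [bil_comb]
      exact Finset.sum_eq_zero fun k _ => by rw [(h2 k).1, mul_zero]
    have h4 : ∀ c, bil G (comb v c) (fun j => (x j).im) = 0 := by
      intro c
      rw [bil_comb]
      exact Finset.sum_eq_zero fun k _ => by rw [(h2 k).2, mul_zero]
    unfold herm
    by_cases h5 : (fun j => (x j).re) = 0
    · have h6 : (fun j => (x j).im) ≠ 0 := by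
        intro h7
        apply hx
        funext j
        exact Complex.ext (congrFun h5 j) (congrFun h7 j)
      have h8 := hpos _ h6 h4
      rw [h5, hbil0, zero_add]
      exact h8
    · have h6 := hpos _ h5 h3
      by_cases h7 : (fun j => (x j).im) = 0
      · rw [h7, hbil0, add_zero]
        exact h6
      · exact add_pos h6 (hpos _ h7 h4)

/-- the alternative for the eigenvalues -/
theorem root_gap (r : ℕ) (c Δ : ℝ) : ∃ ρ : ℝ, 1 < ρ ∧ ∀ (n : ℕ)
    (G A : Matrix (Fin n) (Fin n) ℤ) (v : Fin r → Fin n → ℤ), G.transpose = G →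
    (∀ c : Fin r → ℝ, c ≠ 0 → bil G (comb v c) (comb v c) < 0) →
    (∀ x : Fin n → ℝ, x ≠ 0 → (∀ c, bil G (comb v c) x = 0) → 0 < bil G x x) →
    (∀ x : Fin n → ℝ, bil G (img A x) (img A x) ≤ bil G x x) →
    |((gramZ G v).det : ℝ)| ≤ Δ →
    (∀ s t : Fin r → ℝ, bil G (comb v s) (img A (comb v t)) ^ 2 ≤
      c * (bil G (comb v s) (comb v s) * bil G (comb v t) (comb v t))) →
    (∀ l : ℂ, (A.charpoly.map (Int.castRingHom ℂ)).IsRoot l → l = 0 ∨ ∃ m > 0, l ^ m = 1) ∨
    ∃ l : ℂ, (A.charpoly.map (Int.castRingHom ℂ)).IsRoot l ∧ ρ < ‖l‖ := by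
  obtain ⟨μ, hμ, h⟩ := gap_of r c Δ
  have hρ1 : (1 : ℝ) < μ ^ (((r + 1 : ℕ) : ℝ)⁻¹) := Real.one_lt_rpow hμ (by positivity)
  have hρ2 : (μ ^ (((r + 1 : ℕ) : ℝ)⁻¹)) ^ (r + 1) = μ :=
    Real.rpow_inv_natCast_pow (by linarith) (Nat.succ_ne_zero r)
  set ρ := μ ^ (((r + 1 : ℕ) : ℝ)⁻¹) with hρ
  refine ⟨ρ, hρ1, ?_⟩
  intro n G A v h1 h2 h3 h4 h5 h6
  rcases h n G A v h1 h2 h3 h4 h5 h6 with h7 | h7
  · left
    intro l hl
    by_cases hl0 : l = 0
    · exact Or.inl hl0
    right
    by_contra hcon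
    push Not at hcon
    have hli := isIntegral_of_root hl
    have h8 := MM_gt l hli hl0 (fun m hm => hcon m hm)
    have h9 : aeval l A.charpoly = 0 := by
      rw [IsRoot.def, eval_map] at hl
      exact hl
    have h10 := MM_le_of_root A.charpoly_monic.ne_zero hli h9
    have h11 : ((A.charpoly).map (Int.castRingHom ℂ)).mahlerMeasure = 1 := h7
    linarith
  · right
    refine exists_large_root (A.charpoly_monic.map _) hρ1.le ?_ h7 (card_outside_le G A v h3 h4)
    calc ρ ^ r < ρ ^ (r + 1) := pow_lt_pow_right₀ hρ1 (Nat.lt_succ_self r)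
      _ = μ := hρ2

universe u

/-- the growth gap -/
theorem group_gap (r : ℕ) (c Δ : ℝ) : ∃ κ : ℝ, 0 < κ ∧ ∀ (d : ℕ) (Γ : Type u) [Group Γ] (S : Set Γ)
    (H : Subgroup Γ), S.Finite → Subgroup.closure S = ⊤ → H.index ≠ 0 → H.index ≤ d →
    ∀ (n : ℕ) (G A : Matrix (Fin n) (Fin n) ℤ) (v : Fin r → Fin n → ℤ), G.transpose = G →
    (∀ c : Fin r → ℝ, c ≠ 0 → bil G (comb v c) (comb v c) < 0) →
    (∀ x : Fin n → ℝ, x ≠ 0 → (∀ c, bil G (comb v c) x = 0) → 0 < bil G x x) →
    (∀ x : Fin n → ℝ, bil G (img A x) (img A x) ≤ bil G x x) →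
    |((gramZ G v).det : ℝ)| ≤ Δ →
    (∀ s t : Fin r → ℝ, bil G (comb v s) (img A (comb v t)) ^ 2 ≤
      c * (bil G (comb v s) (comb v s) * bil G (comb v t) (comb v t))) →
    ∀ (L : Subgroup H) (t : H) (e : Additive L ≃+ (Fin n → ℤ)), L.Normal →
    Subgroup.closure (insert t (L : Set H)) = ⊤ →
    (∀ x y : L, (y : H) = t * x * t⁻¹ → e (Additive.ofMul y) = A.mulVec (e (Additive.ofMul x))) →
    Group.IsVirtuallyNilpotent Γ ∨ κ / (2 * d - 1) ≤ H746UG.rho S := by
  obtain ⟨ρ, hρ, h⟩ := root_gap r c Δ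
  have hb := one_lt_base hρ
  have hlog : 0 < Real.log (base ρ) := Real.log_pos hb
  refine ⟨Real.log (base ρ) / 3, by positivity, ?_⟩
  intro d Γ _ S H hfin hgen hH0 hHd n G A v h1 h2 h3 h4 h5 h6 L t e hL hLt hconj
  have hd : 1 ≤ d := by omega
  have hLc : IsMulCommutative L := isComm_of_equiv e
  have hconj' : ∀ a, e (H746UG.th L t a) = A.mulVec (e a) := by
    intro a
    refine hconj (Additive.toMul a) (Additive.toMul (H746UG.th L t a)) ?_
    exact H746UG.val_th t a
  rcases S.eq_empty_or_nonempty with rfl | hne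
  · left
    rw [Subgroup.closure_empty] at hgen
    have hsub : Subsingleton Γ := Subgroup.subsingleton_iff.1 (subsingleton_of_bot_eq_top hgen)
    refine ⟨⊥, ?_, ?_⟩
    · infer_instance
    · constructor
      rw [hgen, Subgroup.index_top]
      exact one_ne_zero
  rcases h n G A v h1 h2 h3 h4 h5 h6 with h7 | ⟨l, hl, hρl⟩
  · left
    apply vn_of_sub H hH0
    refine virtNilp e hLt hconj' (TT S H d) (TT_finite S hfin H d) (TT_gen S hgen H hH0 hHd) ?_
    intro l hl
    rcases h7 l hl with h0 | h0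
    · exact absurd h0 (exists_weight e hLt hconj' hl).1
    · exact h0
  · right
    have hli := isIntegral_of_root hl
    have htor : ∀ m > 0, l ^ m ≠ 1 := by
      intro m hm h8
      have h9 := Complex.norm_eq_one_of_pow_eq_one h8 (by omega)
      linarith
    have h8 := rho_ge_eig e hLt hconj' (TT S H d) (TT_finite S hfin H d)
      (TT_gen S hgen H hH0 hHd) hl htor
    have h9 : base ρ ≤ base (MM l) := base_mono hρ.le (hρl.le.trans (norm_le_MM hli))
    have h10 : Real.log (base ρ) ≤ Real.log (base (MM l)) :=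
      Real.log_le_log (base_pos _) h9
    have h11 := rho_TT S hfin hne H hd
    have he : ((2 * d - 1 : ℕ) : ℝ) = 2 * d - 1 := by
      rw [Nat.cast_sub (by omega)]; push_cast; ring
    rw [he] at h11
    have hpos : (0 : ℝ) < 2 * d - 1 := by
      have : (1 : ℝ) ≤ d := by exact_mod_cast hd
      linarith
    rw [div_le_iff₀ hpos]
    linarith

end Pool.Agent.Q262.UG
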