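import Pool.Agent.Q262.UG.Ext

/-!
# Growth and the product of many eigenvalues
-/

set_option autoImplicit false
set_option linter.unusedSectionVars false

namespace Pool.Agent.Q262.UG

open Finset Polynomial Filter Topology Pool.Agent.W963.GE
open Pool.Agent.H746UG (dsm ev rho)

/-- the digit sum of a function -/
noncomputable def dfun (x : ℂ) {n : ℕ} (a : Fin n → Bool) : ℂ :=
  ∑ i, (if a i then 1 else 0) * x ^ (i : ℕ)

lemma dsm_ofFn (x : ℂ) : ∀ {n : ℕ} (a : Fin n → Bool),
    dsm x (List.ofFn fun i => !a i) = dfun x a := by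
  intro n
  induction n with
  | zero => intro a; simp [dsm, dfun]
  | succ n ih =>
    intro a
    rw [List.ofFn_succ, dsm, ih (fun i => a i.succ)]
    unfold dfun
    rw [Fin.sum_univ_succ, Finset.mul_sum]
    congr 1
    · cases a 0 <;> simp
    · refine Finset.sum_congr rfl fun i _ => ?_
      rw [Fin.val_succ, pow_succ]; ring

theorem count_multi {ι : Type*} [Fintype ι] [DecidableEq ι] (x : ι → ℂ)
    (hinj : Function.Injective x) (hx : ∀ i, 1 < ‖x i‖) {V : Type*} [DecidableEq V] (n : ℕ)
    (g : (Fin n → Bool) → V) (h : ∀ a b, g a = g b → ∀ j, dfun (x j) a = dfun (x j) b) :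
    (2 / (1 + al x)) ^ n ≤ ((univ.image g).card : ℝ) := by
  classical
  have hcs := cs g
  set N := (univ.image g).card with hN
  set Cn := (univ.filter fun p : (Fin n → Bool) × (Fin n → Bool) => g p.1 = g p.2).card with hC
  have hcard : Fintype.card (Fin n → Bool) = 2 ^ n := by simp
  rw [hcard] at hcs
  have hal : 0 < al x := Real.exp_pos _
  have hCle : (Cn : ℝ) ≤ (2 * (1 + al x)) ^ n := by
    refine le_trans ?_ (total x hinj hx n)
    rw [hC, Finset.card_filter]
    push_cast
    rw [← (Equiv.arrowProdEquivProdArrow (Fin n) (fun _ => Bool) (fun _ => Bool)).sum_comp]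
    refine Finset.sum_le_sum fun f _ => ?_
    split_ifs with hf
    · have h0 : SS x f = 0 := by
        funext j
        have h1 : dfun (x j) (fun i => (f i).1) = dfun (x j) (fun i => (f i).2) := h _ _ hf j
        simp only [SS, Pi.zero_apply]
        unfold dfun at h1
        rw [← sub_eq_zero, ← Finset.sum_sub_distrib] at h1
        rw [← h1]
        refine Finset.sum_congr rfl fun i _ => ?_
        unfold dd
        push_cast
        split_ifs <;> simp
      rw [h0]
      simp [NN]
    · exact (Real.exp_pos _).le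
  have h3 : ((2 : ℝ) ^ n) ^ 2 ≤ N * (2 * (1 + al x)) ^ n := by
    have h4 : (((2 : ℝ) ^ n) ^ 2) ≤ (N : ℝ) * Cn := by exact_mod_cast hcs
    exact h4.trans (mul_le_mul_of_nonneg_left hCle (Nat.cast_nonneg _))
  rw [div_pow, div_le_iff₀ (by positivity)]
  have h5 : (2 : ℝ) ^ n * 2 ^ n ≤ 2 ^ n * (N * (1 + al x) ^ n) := by
    rw [mul_pow] at h3
    calc (2 : ℝ) ^ n * 2 ^ n = (2 ^ n) ^ 2 := by ring
      _ ≤ _ := h3
      _ = _ := by ring
  exact le_of_mul_le_mul_left h5 (by positivity)

/-- the number of values at words -/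
theorem count_words {ι : Type*} [Fintype ι] [DecidableEq ι] (x : ι → ℂ)
    (hinj : Function.Injective x) (hx : ∀ i, 1 < ‖x i‖) {V : Type*} (n : ℕ)
    (f : List Bool → V) (h : ∀ u v : List Bool, u.length = n → v.length = n → f u = f v →
      ∀ j, dsm (x j) u = dsm (x j) v) :
    (2 / (1 + al x)) ^ n ≤ (Nat.card {z : V | ∃ w : List Bool, w.length = n ∧ z = f w} : ℝ) := by
  classical
  have h1 := count_multi x hinj hx n (fun a => f (List.ofFn fun i => !a i)) (by
    intro a b hab j
    rw [← dsm_ofFn, ← dsm_ofFn]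
    exact h _ _ (by simp) (by simp) hab j)
  refine h1.trans ?_
  have h2 : {z : V | ∃ w : List Bool, w.length = n ∧ z = f w} =
      ↑(univ.image fun a : Fin n → Bool => f (List.ofFn fun i => !a i)) := by
    ext z
    simp only [Set.mem_setOf_eq, Finset.coe_image, Finset.coe_univ, Set.image_univ, Set.mem_range]
    constructor
    · rintro ⟨w, hw, rfl⟩
      subst hw
      refine ⟨fun i => !(w.get i), ?_⟩
      congr 1
      simp
    · rintro ⟨a, rfl⟩
      exact ⟨_, by simp, rfl⟩
  rw [h2, Nat.card_coe_set_eq, Set.ncard_coe_finset]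

/-- the inverse values, with reversed words -/
theorem count_words_inv {ι : Type*} [Fintype ι] [DecidableEq ι] (x : ι → ℂ)
    (hinj : Function.Injective x) (hx : ∀ i, 1 < ‖x i‖) {V : Type*} (n : ℕ)
    (f : List Bool → V) (h : ∀ u v : List Bool, u.length = n → v.length = n → f u = f v →
      ∀ j, dsm (x j)⁻¹ u = dsm (x j)⁻¹ v) :
    (2 / (1 + al x)) ^ n ≤ (Nat.card {z : V | ∃ w : List Bool, w.length = n ∧ z = f w} : ℝ) := by
  have h1 := count_words x hinj hx n (fun w => f w.reverse) (by
    intro u v hu hv huv j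
    have hx0 : x j ≠ 0 := by
      intro h0
      have := hx j
      rw [h0, norm_zero] at this
      linarith
    have h2 := h u.reverse v.reverse (by simpa using hu) (by simpa using hv) huv j
    have h3 := H746UG.dsm_reverse (x j) hx0 u
    have h4 := H746UG.dsm_reverse (x j) hx0 v
    rw [h3, h4, hu, hv] at h2
    exact mul_left_cancel₀ (mul_ne_zero (pow_ne_zero _ (inv_ne_zero hx0)) hx0) h2)
  have h2 : {z : V | ∃ w : List Bool, w.length = n ∧ z = f w} =
      {z : V | ∃ w : List Bool, w.length = n ∧ z = f w.reverse} := by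
    ext z
    constructor
    · rintro ⟨w, hw, rfl⟩
      exact ⟨w.reverse, by simpa using hw, by simp⟩
    · rintro ⟨w, hw, rfl⟩
      exact ⟨w.reverse, by simpa using hw, rfl⟩
  rw [h2]
  exact h1

/-- distinct values of a power -/
lemma prod_le_image (Λ : Finset ℂ) (hΛ : ∀ l ∈ Λ, 1 < ‖l‖) {m : ℕ} (hm : 0 < m) :
    ∏ l ∈ Λ, ‖l‖ ≤ ∏ μ ∈ Λ.image (fun l => l ^ m), ‖μ‖ := by
  classical
  rw [← Finset.prod_fiberwise_of_maps_to (g := fun l => l ^ m)
    (t := Λ.image (fun l => l ^ m)) (fun l hl => Finset.mem_image_of_mem _ hl)]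
  refine Finset.prod_le_prod (fun μ _ => Finset.prod_nonneg fun _ _ => norm_nonneg _) ?_
  intro μ hμ
  obtain ⟨l0, hl0, rfl⟩ := Finset.mem_image.1 hμ
  have h1 : ∀ l ∈ Λ.filter (fun l => l ^ m = l0 ^ m), ‖l‖ = ‖l0‖ := by
    intro l hl
    have h2 := congrArg norm (Finset.mem_filter.1 hl).2
    rw [norm_pow, norm_pow] at h2
    exact (pow_left_inj₀ (norm_nonneg _) (norm_nonneg _) hm.ne').1 h2
  rw [Finset.prod_congr rfl h1, Finset.prod_const, norm_pow]
  refine pow_le_pow_right₀ (hΛ l0 hl0).le ?_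
  have h3 : Λ.filter (fun l => l ^ m = l0 ^ m) ⊆ (nthRoots m (l0 ^ m)).toFinset := by
    intro l hl
    rw [Multiset.mem_toFinset, mem_nthRoots hm]
    exact (Finset.mem_filter.1 hl).2
  calc (Λ.filter (fun l => l ^ m = l0 ^ m)).card ≤ (nthRoots m (l0 ^ m)).toFinset.card :=
        Finset.card_le_card h3
    _ ≤ Multiset.card (nthRoots m (l0 ^ m)) := Multiset.toFinset_card_le _
    _ ≤ m := card_nthRoots m _

/-- the lower bound for the growth of digit sums in terms of `u = M²` -/
noncomputable def bb (u : ℝ) : ℝ := 2 / (1 + Real.exp (-(1 - 1 / u)))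

lemma bb_mono {u v : ℝ} (hu : 0 < u) (huv : u ≤ v) : bb u ≤ bb v := by
  unfold bb
  have h1 : 1 / v ≤ 1 / u := one_div_le_one_div_of_le hu huv
  have h2 : Real.exp (-(1 - 1 / v)) ≤ Real.exp (-(1 - 1 / u)) := Real.exp_le_exp.2 (by linarith)
  exact div_le_div_of_nonneg_left (by norm_num) (by positivity) (by linarith)

lemma bb_gt {u : ℝ} (hu : 1 < u) : 1 < bb u := by
  unfold bb
  have h1 : 1 / u < 1 := by rw [div_lt_one (by linarith)]; exact hu
  have h2 : Real.exp (-(1 - 1 / u)) < 1 := by
    rw [Real.exp_lt_one_iff] 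
    linarith
  rw [lt_div_iff₀ (by positivity)]
  linarith

lemma bb_pos (u : ℝ) : 0 < bb u := by
  unfold bb
  positivity

end Pool.Agent.Q262.UG
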