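import Pool.Agent.Q262.UG.Ext

/-!
# Extensions by cyclic groups acting with eigenvalues of finite order
-/

set_option autoImplicit false
set_option linter.unusedSectionVars false

namespace Pool.Agent.Q262.UG

open Subgroup Pool.Agent.H746UG Polynomial
open scoped IsMulCommutative commutatorElement Pointwise

lemma prod_dvd_pow (Q : ℂ[X]) (s : Multiset ℂ) (h : ∀ a ∈ s, (X - C a) ∣ Q) :
    (s.map fun a => X - C a).prod ∣ Q ^ s.card := by
  induction s using Multiset.induction_on with
  | empty => simp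
  | cons a s ih =>
    rw [Multiset.map_cons, Multiset.prod_cons, Multiset.card_cons, pow_succ, mul_comm]
    exact mul_dvd_mul (ih fun b hb => h b (Multiset.mem_cons_of_mem hb))
      (h a (Multiset.mem_cons_self a s))

lemma exists_common_order (s : Multiset ℂ) (h : ∀ a ∈ s, ∃ m > 0, a ^ m = 1) :
    ∃ m > 0, ∀ a ∈ s, a ^ m = 1 := by
  induction s using Multiset.induction_on with
  | empty => exact ⟨1, Nat.one_pos, fun a ha => absurd ha (Multiset.notMem_zero a)⟩
  | cons a s ih =>
    obtain ⟨m, hm, h1⟩ := ih fun b hb => h b (Multiset.mem_cons_of_mem hb)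
    obtain ⟨k, hk, h2⟩ := h a (Multiset.mem_cons_self a s)
    refine ⟨m * k, Nat.mul_pos hm hk, fun b hb => ?_⟩
    rcases Multiset.mem_cons.1 hb with rfl | hb
    · rw [mul_comm, pow_mul, h2, one_pow]
    · rw [pow_mul, h1 b hb, one_pow]

/-- an integer matrix whose eigenvalues have finite order is virtually unipotent -/
lemma exists_unipotent {n : ℕ} (A : Matrix (Fin n) (Fin n) ℤ)
    (h : ∀ l : ℂ, (A.charpoly.map (Int.castRingHom ℂ)).IsRoot l → ∃ m > 0, l ^ m = 1) :
    ∃ m > 0, ∃ k, (A ^ m - 1) ^ k = 0 := by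
  classical
  set p := A.charpoly.map (Int.castRingHom ℂ) with hp
  have hpm : p.Monic := A.charpoly_monic.map _
  obtain ⟨m, hm, h1⟩ := exists_common_order p.roots (fun a ha => h a (isRoot_of_mem_roots ha))
  refine ⟨m, hm, p.roots.card, ?_⟩
  have h2 : p ∣ ((X : ℂ[X]) ^ m - 1) ^ p.roots.card := by
    have h3 := (IsAlgClosed.splits p).eq_prod_roots
    rw [hpm.leadingCoeff, C_1, one_mul] at h3
    conv_lhs => rw [h3]
    apply prod_dvd_pow
    intro a ha
    rw [dvd_iff_isRoot, IsRoot.def]
    simp [h1 a ha]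
  have h4 : aeval (A.map (Int.castRingHom ℂ)) p = 0 := by
    rw [hp, ← Matrix.charpoly_map]
    exact Matrix.aeval_self_charpoly _
  obtain ⟨q, hq⟩ := h2
  have h5 : aeval (A.map (Int.castRingHom ℂ)) (((X : ℂ[X]) ^ m - 1) ^ p.roots.card) = 0 := by
    rw [hq, map_mul, h4, zero_mul]
  rw [map_pow, map_sub, map_pow, aeval_X, map_one] at h5
  have h6 : ((A ^ m - 1) ^ p.roots.card).map (Int.castRingHom ℂ) = 0 := by
    have h7 : ∀ B : Matrix (Fin n) (Fin n) ℤ, B.map (Int.castRingHom ℂ) =
        (Int.castRingHom ℂ).mapMatrix B := fun _ => rfl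
    rw [h7, map_pow, map_sub, map_pow, map_one]
    exact h5
  ext i j
  have h8 := congrFun (congrFun h6 i) j
  simpa using h8

section
variable {G : Type*} [Group G] {N : Subgroup G} [N.Normal] [hN : IsMulCommutative N] {t : G} {n : ℕ}
  {A : Matrix (Fin n) (Fin n) ℤ} (e : Additive N ≃+ (Fin n → ℤ))
  (hgen : closure (insert t (N : Set G)) = ⊤) (hconj : ∀ a, e (th N t a) = A.mulVec (e a))

include hgen hconj in
theorem virtNilp (S : Set G) (hS : S.Finite) (hSg : closure S = ⊤)
    (h : ∀ l : ℂ, (A.charpoly.map (Int.castRingHom ℂ)).IsRoot l → ∃ m > 0, l ^ m = 1) :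
    Group.IsVirtuallyNilpotent G := by
  obtain ⟨m, hm, k, hk⟩ := exists_unipotent A h
  have hQ := comm_mem hgen
  have hqa : ∀ a : Additive N, e (qg N hQ t • a) = A.mulVec (e a) := by
    intro a
    rw [qg_smul, hconj]
  have hqm : ∀ (j : ℕ) (a : Additive N), e (qg N hQ t ^ j • a) = (A ^ j).mulVec (e a) := by
    intro j
    induction j with
    | zero => intro a; simp
    | succ j ih =>
      intro a
      rw [pow_succ, mul_smul, ih, hqa, pow_succ, Matrix.mulVec_mulVec]
  have hq1 : ∀ a : Additive N, e ((qg N hQ t ^ m - 1) • a) = (A ^ m - 1).mulVec (e a) := by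
    intro a
    rw [sub_smul, map_sub, hqm, one_smul, Matrix.sub_mulVec, Matrix.one_mulVec]
  have hqk : ∀ (j : ℕ) (a : Additive N), e ((qg N hQ t ^ m - 1) ^ j • a) =
      ((A ^ m - 1) ^ j).mulVec (e a) := by
    intro j
    induction j with
    | zero => intro a; simp
    | succ j ih =>
      intro a
      rw [pow_succ, mul_smul, ih, hq1, pow_succ, Matrix.mulVec_mulVec]
  have hnil : (qg N hQ t ^ m - 1) ^ k = 0 := by
    apply RR_faithful
    intro a
    apply e.injective
    rw [hqk, hk, Matrix.zero_mulVec, map_zero]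
  apply vn_of_VU N hQ S hS hSg
  intro g
  refine ⟨m, hm, k, fun a => ?_⟩
  let J : Ideal (RR N) := Ideal.span {qg N hQ t ^ m - 1}
  let V : Subgroup G :=
    { carrier := {g | qg N hQ g ^ m - 1 ∈ J}
      mul_mem' := by
        intro g h hg hh
        show qg N hQ (g * h) ^ m - 1 ∈ J
        have : qg N hQ (g * h) ^ m - 1 =
            qg N hQ g ^ m * (qg N hQ h ^ m - 1) + (qg N hQ g ^ m - 1) := by
          rw [map_mul, mul_pow]; ring
        rw [this]
        exact J.add_mem (J.mul_mem_left _ hh) hg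
      one_mem' := by
        show qg N hQ 1 ^ m - 1 ∈ J
        rw [map_one, one_pow, sub_self]; exact J.zero_mem
      inv_mem' := by
        intro g hg
        show qg N hQ g⁻¹ ^ m - 1 ∈ J
        have h1 : qg N hQ g⁻¹ ^ m * qg N hQ g ^ m = 1 := by
          rw [← mul_pow, ← map_mul, inv_mul_cancel, map_one, one_pow]
        have : qg N hQ g⁻¹ ^ m - 1 = -(qg N hQ g⁻¹ ^ m * (qg N hQ g ^ m - 1)) := by
          rw [mul_sub, h1]; ring
        rw [this]
        exact J.neg_mem (J.mul_mem_left _ hg) }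
  have hV : V = ⊤ := by
    rw [eq_top_iff, ← hgen, closure_le]
    rintro x (rfl | hx)
    · exact Ideal.subset_span rfl
    · show qg N hQ x ^ m - 1 ∈ J
      have h1 : qg N hQ x - 1 = 0 := by
        apply RR_faithful
        intro a
        rw [sub_smul, qg_smul, one_smul, th_of_mem hx]
        exact sub_self a
      rw [sub_eq_zero.1 h1, one_pow, sub_self]
      exact J.zero_mem
  have hg : g ∈ V := by rw [hV]; trivial
  obtain ⟨c, hc⟩ := Ideal.mem_span_singleton'.1 (show qg N hQ g ^ m - 1 ∈ J from hg)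
  rw [← hc, mul_pow, hnil, mul_zero, zero_smul]
  exact (⊥ : Submodule (RR N) (Additive N)).zero_mem

end

end Pool.Agent.Q262.UG
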