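import Pool.Agent.Q262.UG.Coll
import Pool.Agent.Q262.UG.Nil
import Pool.Agent.Q262.FR.Metric
import Pool.Agent.TH207.Mon

/-!
# Growth gap for extensions by perturbed contractions
-/

set_option autoImplicit false
set_option linter.unusedSectionVars false

namespace Pool.Agent.Q262.UG

open Polynomial Filter Topology Q262.FR
open Pool.Agent.H261R2.CM Pool.Agent.W963.GE
open scoped Pointwise

/-- the distinct roots outside the unit disc -/
noncomputable def outs (p : ℂ[X]) : Finset ℂ := by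
  classical
  exact p.roots.toFinset.filter fun l => 1 < ‖l‖

lemma mem_outs {p : ℂ[X]} (hp : p ≠ 0) {l : ℂ} : l ∈ outs p ↔ p.IsRoot l ∧ 1 < ‖l‖ := by
  classical
  unfold outs
  rw [Finset.mem_filter, Multiset.mem_toFinset, mem_roots hp]

lemma log_mahler {p : ℂ[X]} (hp : p.Monic) :
    Real.log p.mahlerMeasure = ∑ l ∈ outs p, (p.rootMultiplicity l : ℝ) * Real.log ‖l‖ := by
  classical
  rw [mahlerMeasure_eq_leadingCoeff_mul_prod_roots, hp.leadingCoeff, norm_one, one_mul,
    Finset.prod_multiset_map_count, Real.log_prod]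
  · rw [outs, Finset.sum_filter]
    refine Finset.sum_congr rfl fun l _ => ?_
    rw [Real.log_pow, count_roots]
    split_ifs with h
    · rw [max_eq_right h.le]
    · rw [max_eq_left (not_lt.1 h), Real.log_one, mul_zero]
  · intro l _
    have : (0 : ℝ) < max 1 ‖l‖ := lt_of_lt_of_le one_pos (le_max_left _ _)
    exact pow_ne_zero _ this.ne'

lemma log_mahler_le {p : ℂ[X]} (hp : p.Monic) (L : ℕ)
    (h : ∀ l ∈ outs p, p.rootMultiplicity l ≤ L) :
    Real.log p.mahlerMeasure ≤ L * ∑ l ∈ outs p, Real.log ‖l‖ := by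
  rw [log_mahler hp, Finset.mul_sum]
  refine Finset.sum_le_sum fun l hl => ?_
  have h1 : 0 ≤ Real.log ‖l‖ := Real.log_nonneg ((mem_outs hp.ne_zero).1 hl).2.le
  exact mul_le_mul_of_nonneg_right (by exact_mod_cast h l hl) h1

lemma norm_le_of_m1 {Ψ : ℤ[X]} (h0 : Ψ ≠ 0) (h : m1 Ψ = 1) {l : ℂ} (hl : (toC Ψ).IsRoot l) :
    ‖l‖ ≤ 1 := by
  have hC : toC Ψ ≠ 0 := by
    intro h1
    apply h0
    exact (Polynomial.map_injective _ (Int.castRingHom ℂ).injective_int) (by
      rw [Polynomial.map_zero]; exact h1)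
  have hlc : 1 ≤ ‖(toC Ψ).leadingCoeff‖ := by
    have h1 : (toC Ψ).leadingCoeff = (Ψ.leadingCoeff : ℂ) := by
      unfold toC
      rw [leadingCoeff_map_of_injective (Int.castRingHom ℂ).injective_int]
      rfl
    rw [h1, Complex.norm_intCast]
    have h2 : 1 ≤ |Ψ.leadingCoeff| := Int.one_le_abs (leadingCoeff_ne_zero.2 h0)
    exact_mod_cast h2
  have h1 := mahlerMeasure_eq_leadingCoeff_mul_prod_roots (toC Ψ)
  have h2 : (toC Ψ).mahlerMeasure = 1 := h
  rw [h2] at h1
  have hmem : l ∈ (toC Ψ).roots := (mem_roots hC).2 hl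
  obtain ⟨s, hs⟩ := Multiset.exists_cons_of_mem hmem
  rw [hs, Multiset.map_cons, Multiset.prod_cons] at h1
  have h3 : ∀ s : Multiset ℂ, 1 ≤ (s.map fun a => max 1 ‖a‖).prod := by
    intro s
    induction s using Multiset.induction_on with
    | empty => simp
    | cons a s ih =>
      rw [Multiset.map_cons, Multiset.prod_cons]
      exact one_le_mul_of_one_le_of_one_le (le_max_left _ _) ih
  have h4 := h3 s
  have h5 : ‖l‖ ≤ max 1 ‖l‖ := le_max_right _ _
  have h6 : (1 : ℝ) ≤ max 1 ‖l‖ := le_max_left _ _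
  have h7 : max 1 ‖l‖ * 1 ≤ max 1 ‖l‖ * (s.map fun a => max 1 ‖a‖).prod :=
    mul_le_mul_of_nonneg_left h4 (by linarith)
  have h8 : 1 * (max 1 ‖l‖ * (s.map fun a => max 1 ‖a‖).prod) ≤
      ‖(toC Ψ).leadingCoeff‖ * (max 1 ‖l‖ * (s.map fun a => max 1 ‖a‖).prod) :=
    mul_le_mul_of_nonneg_right hlc (by linarith)
  linarith

lemma card_support_le_len (R : ℤ[X]) : (R.support.card : ℤ) ≤ len R := by
  unfold len
  have h1 : ∑ i ∈ R.support, (1 : ℤ) ≤ ∑ i ∈ R.support, |R.coeff i| :=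
    Finset.sum_le_sum fun i hi => Int.one_le_abs (mem_support_iff.1 hi)
  simpa using h1

/-- the multiplicity of a root outside the unit disc is bounded by the length -/
lemma mult_le {P Φ Ψ R : ℤ[X]} (hP : P ≠ 0) (hΦ : Φ ≠ 0) (hΨ : Ψ ≠ 0) (hR : R ≠ 0)
    (h1 : m1 Ψ = 1) (h : P * Φ = R * Ψ) {L : ℕ} (hL : len R ≤ L) {l : ℂ} (hl : 1 < ‖l‖) :
    (toC P).rootMultiplicity l ≤ L := by
  have hinj := Polynomial.map_injective _ (Int.castRingHom ℂ).injective_int
  have hC : ∀ F : ℤ[X], F ≠ 0 → toC F ≠ 0 := by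
    intro F hF h2
    apply hF
    apply hinj
    rw [Polynomial.map_zero]
    exact h2
  have hmul : toC P * toC Φ = toC R * toC Ψ := by
    unfold toC
    rw [← Polynomial.map_mul, ← Polynomial.map_mul, h]
  have h2 : (toC P).rootMultiplicity l + (toC Φ).rootMultiplicity l =
      (toC R).rootMultiplicity l + (toC Ψ).rootMultiplicity l := by
    rw [← rootMultiplicity_mul (mul_ne_zero (hC P hP) (hC Φ hΦ)),
      ← rootMultiplicity_mul (mul_ne_zero (hC R hR) (hC Ψ hΨ)), hmul]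
  have h3 : (toC Ψ).rootMultiplicity l = 0 := by
    rw [rootMultiplicity_eq_zero_iff]
    intro h4
    have := norm_le_of_m1 hΨ h1 h4
    linarith
  have hl0 : l ≠ 0 := by
    rintro rfl
    rw [norm_zero] at hl
    linarith
  have h4 := TH207.card_of_root hl0 (hC R hR)
  have h5 : (toC R).support = R.support :=
    support_map_of_injective R (Int.castRingHom ℂ).injective_int
  rw [h5] at h4
  have h6 := card_support_le_len R
  have h7 : (R.support.card : ℤ) ≤ L := h6.trans hL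
  have h8 : R.support.card ≤ L := by exact_mod_cast h7
  omega

/-- the alternative for the eigenvalues of perturbed contractions -/
theorem out_gap (r : ℕ) (N : ℝ) : ∃ σ : ℝ, 0 < σ ∧ ∀ (n : ℕ) (A : Matrix (Fin n) (Fin n) ℤ)
    (S T W : Matrix (Fin n) (Fin n) ℂ) (Q : ℤ[X]), S * T = 1 → W.charpoly = toC Q →
    (S * (A.map (Int.castRingHom ℂ)) * T - S * W * T).rank ≤ r →
    (∀ x, ∑ i, ‖((S * (A.map (Int.castRingHom ℂ)) * T - S * W * T).mulVec x) i‖ ^ 2 ≤
      N ^ 2 * ∑ i, ‖x i‖ ^ 2) →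
    (∀ x, ∑ i, ‖((S * W * T).mulVec x) i‖ ^ 2 ≤ ∑ i, ‖x i‖ ^ 2) →
    (∀ l : ℂ, (A.charpoly.map (Int.castRingHom ℂ)).IsRoot l → l = 0 ∨ ∃ m > 0, l ^ m = 1) ∨
    σ ≤ ∑ l ∈ outs (A.charpoly.map (Int.castRingHom ℂ)), Real.log ‖l‖ := by
  obtain ⟨μ, L, hμ, h⟩ := main r |N| (abs_nonneg N)
  have hN2 : |N| ^ 2 = N ^ 2 := sq_abs N
  refine ⟨Real.log μ / (L + 1), div_pos (Real.log_pos hμ) (by positivity), ?_⟩
  intro n A S T W Q hST hQ hr hA hW
  have hTS : T * S = 1 := mul_eq_one_comm.mp hST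
  have hAc : (A.map (Int.castRingHom ℂ)).charpoly = toC A.charpoly :=
    Matrix.charpoly_map A (Int.castRingHom ℂ)
  have hP' : (S * (A.map (Int.castRingHom ℂ)) * T).charpoly = toC A.charpoly := by
    rw [charpoly_conj _ _ _ hTS]
    exact hAc
  have hQ' : (S * W * T).charpoly = toC Q := by
    rw [charpoly_conj _ _ _ hTS]
    exact hQ
  have hA' := norm_le_of (S * (A.map (Int.castRingHom ℂ)) * T - S * W * T) |N| (abs_nonneg N)
    (fun x => by rw [hN2]; exact hA x)
  obtain ⟨g, Φ, Ψ, R, hΦ, hΨ, hR, g1, g2, g3, g4⟩ := h n (S * W * T)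
    (S * (A.map (Int.castRingHom ℂ)) * T) A.charpoly Q (ctr_of _ hW) hA' hr hP' hQ'
  have hmon : (A.charpoly.map (Int.castRingHom ℂ)).Monic := A.charpoly_monic.map _
  rcases g with h7 | h7
  · left
    intro l hl
    by_cases hl0 : l = 0
    · exact Or.inl hl0
    right
    by_contra hcon
    push Not at hcon
    have hli := isIntegral_of_root hl
    have h8 := MM_gt l hli hl0 (fun m hm => hcon m hm)
    have h9 : aeval l A.charpoly = 0 := by
      rw [IsRoot.def, eval_map] at hl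
      exact hl
    have h10 := MM_le_of_root A.charpoly_monic.ne_zero hli h9
    have h11 : ((A.charpoly).map (Int.castRingHom ℂ)).mahlerMeasure = 1 := h7
    linarith
  · right
    have h8 := log_mahler_le hmon L (fun l hl => mult_le A.charpoly_monic.ne_zero hΦ hΨ hR g2 g3 g4
      ((mem_outs hmon.ne_zero).1 hl).2)
    have h9 : Real.log μ ≤ Real.log ((A.charpoly).map (Int.castRingHom ℂ)).mahlerMeasure :=
      Real.log_le_log (by linarith) h7
    have h10 : 0 ≤ ∑ l ∈ outs (A.charpoly.map (Int.castRingHom ℂ)), Real.log ‖l‖ :=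
      Finset.sum_nonneg fun l hl => Real.log_nonneg ((mem_outs hmon.ne_zero).1 hl).2.le
    rw [div_le_iff₀ (by positivity)]
    nlinarith

lemma log_bb_ge {x : ℝ} (h0 : 0 ≤ x) (h1 : x ≤ 1 / 2) : x / 4 ≤ Real.log (bb (Real.exp (2 * x))) := by
  have hy1 : 1 / Real.exp (2 * x) = Real.exp (-(2 * x)) := by
    rw [Real.exp_neg, one_div]
  have hexp : ∀ z : ℝ, 0 ≤ z → z ≤ 1 → Real.exp (-z) ≤ 1 - z / 2 := by
    intro z hz hz1
    have h2 : 1 + z ≤ Real.exp z := by linarith [Real.add_one_le_exp z]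
    have h3 : Real.exp (-z) ≤ 1 / (1 + z) := by
      rw [Real.exp_neg, ← one_div]
      exact one_div_le_one_div_of_le (by linarith) h2
    refine h3.trans ?_
    rw [div_le_iff₀ (by linarith)]
    nlinarith
  have h2 := hexp (2 * x) (by linarith) (by linarith)
  set y := 1 - 1 / Real.exp (2 * x) with hy
  have hyx : x ≤ y := by rw [hy, hy1]; linarith
  have hy1' : y ≤ 1 := by
    have := Real.exp_pos (2 * x)
    rw [hy]
    have : 0 < 1 / Real.exp (2 * x) := by positivity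
    linarith
  have h3 := hexp y (by linarith) hy1'
  have h4 : bb (Real.exp (2 * x)) = 2 / (1 + Real.exp (-y)) := rfl
  have hpos : 0 < (1 + Real.exp (-y)) / 2 := by positivity
  have h5 : Real.log (bb (Real.exp (2 * x))) = -Real.log ((1 + Real.exp (-y)) / 2) := by
    rw [h4, ← Real.log_inv, inv_div]
  have h6 := Real.log_le_sub_one_of_pos hpos
  rw [h5]
  linarith

universe u

lemma ncard_pow_le {Γ : Type u} [Group Γ] (S : Set Γ) (hS : S.Finite) (m : ℕ) :
    (S ^ m).ncard ≤ S.ncard ^ m := by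
  induction m with
  | zero => rw [pow_zero, pow_zero]; exact (Set.ncard_singleton (1 : Γ)).le
  | succ m ih =>
    rw [pow_succ, pow_succ]
    have h1 : (S ^ m * S).ncard ≤ (S ^ m).ncard * S.ncard := by
      have h2 := Set.natCard_mul_le (s := S ^ m) (t := S)
      rwa [Nat.card_coe_set_eq, Nat.card_coe_set_eq, Nat.card_coe_set_eq] at h2
    exact h1.trans (Nat.mul_le_mul_right _ ih)

lemma TT_ncard {Γ : Type u} [Group Γ] (S : Set Γ) (hS : S.Finite) (H : Subgroup Γ) (d : ℕ) :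
    (TT S H d).ncard ≤ (S.ncard + 1) ^ (2 * d - 1) := by
  have h1 : (TT S H d).ncard ≤ ((insert 1 S) ^ (2 * d - 1)).ncard := by
    refine Set.ncard_le_ncard_of_injOn (fun t : H => (t : Γ)) (fun t ht => ht)
      (Subtype.val_injective.injOn) (H746UG.finite_pow _ (hS.insert 1) _)
  refine h1.trans ((ncard_pow_le _ (hS.insert 1) _).trans ?_)
  exact Nat.pow_le_pow_left (Set.ncard_insert_le 1 S) _

/-- the growth gap -/
theorem group_gap_per (r : ℕ) (N : ℝ) : ∃ κ : ℝ, 0 < κ ∧ ∀ (d : ℕ) (Γ : Type u) [Group Γ]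
    (G : Set Γ) (H : Subgroup Γ), G.Finite → Subgroup.closure G = ⊤ → H.index ≠ 0 → H.index ≤ d →
    ∀ (n : ℕ) (A : Matrix (Fin n) (Fin n) ℤ) (S T W : Matrix (Fin n) (Fin n) ℂ) (Q : ℤ[X]),
    S * T = 1 → W.charpoly = toC Q →
    (S * (A.map (Int.castRingHom ℂ)) * T - S * W * T).rank ≤ r →
    (∀ x, ∑ i, ‖((S * (A.map (Int.castRingHom ℂ)) * T - S * W * T).mulVec x) i‖ ^ 2 ≤
      N ^ 2 * ∑ i, ‖x i‖ ^ 2) →
    (∀ x, ∑ i, ‖((S * W * T).mulVec x) i‖ ^ 2 ≤ ∑ i, ‖x i‖ ^ 2) →
    ∀ (L : Subgroup H) (t : H) (e : Additive L ≃+ (Fin n → ℤ)), L.Normal →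
    Subgroup.closure (insert t (L : Set H)) = ⊤ →
    (∀ x y : L, (y : H) = t * x * t⁻¹ → e (Additive.ofMul y) = A.mulVec (e (Additive.ofMul x))) →
    Group.IsVirtuallyNilpotent Γ ∨
      κ / ((2 * d - 1) * ((G.ncard : ℝ) + 1) ^ (4 * d - 2)) ≤ H746UG.rho G := by
  obtain ⟨σ, hσ, h⟩ := out_gap r N
  set τ := min σ 1 with hτ
  have hτ0 : 0 < τ := lt_min hσ one_pos
  refine ⟨τ / 24, by positivity, ?_⟩
  intro d Γ _ G H hfin hgen hH0 hHd n A S T W Q hST hQ hr hA hW L t e hL hLt hconj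
  have hd : 1 ≤ d := by omega
  have hLc : IsMulCommutative L := isComm_of_equiv e
  have hconj' : ∀ a, e (H746UG.th L t a) = A.mulVec (e a) := by
    intro a
    refine hconj (Additive.toMul a) (Additive.toMul (H746UG.th L t a)) ?_
    exact H746UG.val_th t a
  rcases G.eq_empty_or_nonempty with rfl | hne
  · left
    rw [Subgroup.closure_empty] at hgen
    have hsub : Subsingleton Γ := Subgroup.subsingleton_iff.1 (subsingleton_of_bot_eq_top hgen)
    refine ⟨⊥, ?_, ?_⟩
    · infer_instance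
    · constructor
      rw [hgen, Subgroup.index_top]
      exact one_ne_zero
  have hmon : (A.charpoly.map (Int.castRingHom ℂ)).Monic := A.charpoly_monic.map _
  rcases h n A S T W Q hST hQ hr hA hW with h7 | h7
  · left
    apply vn_of_sub H hH0
    refine virtNilp e hLt hconj' (TT G H d) (TT_finite G hfin H d) (TT_gen G hgen H hH0 hHd) ?_
    intro l hl
    rcases h7 l hl with h0 | h0
    · exact absurd h0 (exists_weight e hLt hconj' hl).1
    · exact h0
  · right
    set Λ := outs (A.charpoly.map (Int.castRingHom ℂ)) with hΛ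
    have hΛ1 : ∀ l ∈ Λ, (A.charpoly.map (Int.castRingHom ℂ)).IsRoot l ∧ 1 < ‖l‖ :=
      fun l hl => (mem_outs hmon.ne_zero).1 hl
    have hΛne : Λ.Nonempty := by
      rw [Finset.nonempty_iff_ne_empty]
      intro h0
      rw [h0, Finset.sum_empty] at h7
      linarith
    set P : ℝ := 2 * ((G.ncard : ℝ) + 1) ^ (4 * d - 2) with hP
    have hP2 : 2 ≤ P := by
      have h8 : (1 : ℝ) ≤ ((G.ncard : ℝ) + 1) ^ (4 * d - 2) := one_le_pow₀ (by
        have : (0 : ℝ) ≤ (G.ncard : ℝ) := Nat.cast_nonneg _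
        linarith)
      linarith
    have hPT : ((2 * (TT G H d).ncard ^ 2 : ℕ) : ℝ) ≤ P := by
      have h8 : 2 * (TT G H d).ncard ^ 2 ≤ 2 * (G.ncard + 1) ^ (4 * d - 2) := by
        have h9 := Nat.pow_le_pow_left (TT_ncard G hfin H d) 2
        rw [← pow_mul, show (2 * d - 1) * 2 = 4 * d - 2 by omega] at h9
        omega
      rw [hP]
      exact_mod_cast h8
    have h8 := rho_ge_many e hconj' hLt (TT G H d) (TT_finite G hfin H d)
      (TT_gen G hgen H hH0 hHd) Λ hΛ1 hΛne P hPT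
    have hx0 : 0 ≤ τ / P := by positivity
    have hx1 : τ / P ≤ 1 / 2 := by
      rw [div_le_div_iff₀ (by linarith) (by norm_num)]
      have : τ ≤ 1 := min_le_right _ _
      linarith
    have h9 := log_bb_ge hx0 hx1
    have h10 : bb (Real.exp (2 * (τ / P))) ≤
        bb (Real.exp (2 * ((∑ l ∈ Λ, Real.log ‖l‖) / P))) := by
      apply bb_mono (Real.exp_pos _)
      apply Real.exp_le_exp.2
      have : τ ≤ ∑ l ∈ Λ, Real.log ‖l‖ := (min_le_left _ _).trans h7
      have h11 : τ / P ≤ (∑ l ∈ Λ, Real.log ‖l‖) / P :=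
        div_le_div_of_nonneg_right this (by linarith)
      linarith
    have h11 := Real.log_le_log (bb_pos _) h10
    have h12 := rho_TT G hfin hne H hd
    have he : ((2 * d - 1 : ℕ) : ℝ) = 2 * d - 1 := by
      rw [Nat.cast_sub (by omega)]; push_cast; ring
    rw [he] at h12
    have hpos : (0 : ℝ) < 2 * d - 1 := by
      have : (1 : ℝ) ≤ d := by exact_mod_cast hd
      linarith
    have hq : (0 : ℝ) < ((G.ncard : ℝ) + 1) ^ (4 * d - 2) := by positivity
    have h13 : τ / P / 12 ≤ (2 * d - 1) * H746UG.rho G := by linarith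
    have h14 : τ / P / 12 = τ / 24 / ((G.ncard : ℝ) + 1) ^ (4 * d - 2) := by
      rw [hP]; field_simp; ring
    rw [h14] at h13
    rw [mul_comm, ← div_div, div_le_iff₀ hpos]
    linarith

end Pool.Agent.Q262.UG
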