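import Pool.Agent.H746UG.MetMain
import Pool.Agent.H746UG.MetFinal

/-!
# Growth and weights of abelian normal subgroups
-/

set_option autoImplicit false
set_option linter.unusedSectionVars false

namespace Pool.Agent.Q262.UG

open Subgroup Pool.Agent.H746UG
open scoped IsMulCommutative commutatorElement Pointwise

variable {G : Type*} [Group G] (N : Subgroup G) [N.Normal] [hN : IsMulCommutative N]

/-- a weight of `G` on `N` -/
structure IsWeight (φ : Additive N →+ ℂ) (χ : G → ℂ) : Prop where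
  ne : ∃ a, φ a ≠ 0
  act : ∀ g a, φ (th N g a) = χ g * φ a

variable (hQ : ∀ g h : G, g * h * g⁻¹ * h⁻¹ ∈ N)

section
variable {N} {φ : Additive N →+ ℂ} {χ : G → ℂ} (h : IsWeight N φ χ)
include h

lemma IsWeight.scalar (r : RR N) : ∃ s : ℂ, ∀ a : Additive N, φ (r • a) = s * φ a := by
  refine RR_induct N (P := fun r => ∃ s : ℂ, ∀ a : Additive N, φ (r • a) = s * φ a) ?_ ?_ ?_ r
  · rintro ⟨z, hz⟩
    obtain ⟨g, rfl⟩ := QuotientGroup.mk_surjective z
    refine ⟨χ g, fun a => ?_⟩
    rw [qq_smul N g hz a, h.act]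
  · rintro x y ⟨s, hs⟩ ⟨s', hs'⟩
    refine ⟨s + s', fun a => ?_⟩
    rw [add_smul, map_add, hs, hs']; ring
  · rintro n x ⟨s, hs⟩
    refine ⟨n * s, fun a => ?_⟩
    rw [smul_assoc, map_zsmul, hs, zsmul_eq_mul]; ring

/-- the kernel of a weight -/
noncomputable def IsWeight.ker : Submodule (RR N) (Additive N) where
  carrier := {a | φ a = 0}
  add_mem' := by
    intro a b ha hb
    show φ (a + b) = 0
    rw [map_add, show φ a = 0 from ha, show φ b = 0 from hb, add_zero]
  zero_mem' := map_zero φ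
  smul_mem' := by
    intro r a ha
    obtain ⟨s, hs⟩ := h.scalar r
    show φ (r • a) = 0
    rw [hs, show φ a = 0 from ha, mul_zero]

lemma IsWeight.mem_ker (a : Additive N) : a ∈ h.ker ↔ φ a = 0 := Iff.rfl

lemma IsWeight.act_qg (g : G) (a : Additive N) : φ (H746UG.qg N hQ g • a) = χ g * φ a := by
  rw [H746UG.qg_smul, h.act]

lemma IsWeight.act_qg_pow (g : G) (m : ℕ) (a : Additive N) :
    φ (H746UG.qg N hQ g ^ m • a) = χ g ^ m * φ a := by
  induction m generalizing a with
  | zero => simp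
  | succ m ih => rw [pow_succ, mul_smul, ih, h.act_qg hQ, pow_succ]; ring

lemma IsWeight.act_sm (g : G) (w : List Bool) (a : Additive N) :
    φ (H746UG.sm (H746UG.qg N hQ g) w • a) = dsm (χ g) w * φ a := by
  induction w generalizing a with
  | nil => simp [H746UG.sm, dsm]
  | cons b w ih =>
    rw [H746UG.sm, dsm, add_smul, map_add, mul_smul, h.act_qg hQ, ih]
    cases b
    · simp only [Bool.false_eq_true, if_false, one_smul]; ring
    · simp only [if_true, zero_smul, map_zero]; ring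

include hQ in
/-- main consequence of the library: a pair of short words whose products are digit sums -/
theorem IsWeight.pair (S : Set G) (hgen : Subgroup.closure S = ⊤)
    (hU : ∃ g, ∀ m > 0, χ g ^ m ≠ 1) :
    ∃ s ∈ S, ∃ t ∈ S, ∃ X Y : G, ((X = s * t ∧ Y = t * s) ∨ (X = s * s * t ∧ Y = s * t * s)) ∧
      (∀ m > 0, χ X ^ m ≠ 1) ∧
      ∀ u v : List Bool, u.length = v.length → ev X Y u = ev X Y v →
        dsm (χ X) u = dsm (χ X) v := by
  obtain ⟨a0, ha0⟩ := h.ne
  have key : ∀ g : G, (∀ m > 0, ¬ ∀ a : Additive N, (H746UG.qg N hQ g ^ m - 1) • a ∈ h.ker) ↔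
      ∀ m > 0, χ g ^ m ≠ 1 := by
    intro g
    have h1 : ∀ m (a : Additive N), (H746UG.qg N hQ g ^ m - 1) • a ∈ h.ker ↔
        (χ g ^ m - 1) * φ a = 0 := by
      intro m a
      rw [h.mem_ker, sub_smul, map_sub, h.act_qg_pow hQ, one_smul, sub_mul, one_mul]
    constructor
    · intro h2 m hm h3
      apply h2 m hm
      intro a
      rw [h1, h3, sub_self, zero_mul]
    · intro h2 m hm h3
      have h4 := (h1 m a0).1 (h3 a0)
      rcases mul_eq_zero.1 h4 with h5 | h5
      · exact h2 m hm (sub_eq_zero.1 h5)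
      · exact ha0 h5
  obtain ⟨g, hg⟩ := hU
  obtain ⟨s, hs, t, ht, X, Y, hXY, hX, hrel⟩ := met_core N hQ S hgen h.ker (by
    intro r
    obtain ⟨c, hc⟩ := h.scalar r
    by_cases h0 : c = 0
    · left
      intro a
      rw [h.mem_ker, hc, h0, zero_mul]
    · right
      intro a ha
      rw [h.mem_ker, hc] at ha
      rw [h.mem_ker]
      exact (mul_eq_zero.1 ha).resolve_left h0) ⟨g, (key g).2 hg⟩
  refine ⟨s, hs, t, ht, X, Y, hXY, (key X).1 hX, ?_⟩
  intro u v hl he
  have h1 := hrel u v hl he a0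
  rw [h.mem_ker, sub_smul, map_sub, h.act_sm hQ, h.act_sm hQ, ← sub_mul] at h1
  exact sub_eq_zero.1 ((mul_eq_zero.1 h1).resolve_right ha0)

end

/-- the number of the products of a pair of short words -/
lemma card_le_of_pair {S : Set G} (hS : S.Finite) {s t X Y : G} (hs : s ∈ S) (ht : t ∈ S)
    (hXY : (X = s * t ∧ Y = t * s) ∨ (X = s * s * t ∧ Y = s * t * s)) {V : Type*}
    (f : List Bool → V) (n : ℕ)
    (hrel : ∀ u v : List Bool, u.length = n → v.length = n → ev X Y u = ev X Y v → f u = f v) :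
    Nat.card {z : V | ∃ w : List Bool, w.length = n ∧ z = f w} ≤ Nat.card ↥(S ^ n) ^ 3 := by
  have key : ∀ j, X ∈ S ^ j → Y ∈ S ^ j →
      Nat.card {z : V | ∃ w : List Bool, w.length = n ∧ z = f w} ≤ Nat.card ↥(S ^ n) ^ j := by
    intro j hX hY
    refine le_trans ?_ (card_pow_mul S j n)
    have hf : Finite ↥(S ^ (j * n)) := finite_pow S hS _
    choose w hw1 hw2 using fun z : {z : V | ∃ w : List Bool, w.length = n ∧ z = f w} => z.2
    refine Nat.card_le_card_of_injective (fun z => (⟨ev X Y (w z), by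
      have := ev_mem S j hX hY (w z)
      rwa [hw1 z] at this⟩ : ↥(S ^ (j * n)))) ?_
    intro z z' hz
    have h1 : ev X Y (w z) = ev X Y (w z') := congrArg Subtype.val hz
    have h2 := hrel _ _ (hw1 z) (hw1 z') h1
    apply Subtype.ext
    rw [hw2 z, hw2 z']
    exact h2
  have hpos : 0 < Nat.card ↥(S ^ n) := by
    have h1 : Finite ↥(S ^ n) := finite_pow S hS n
    have h2 : Nonempty ↥(S ^ n) := ⟨⟨s ^ n, Set.pow_mem_pow hs⟩⟩
    exact Nat.card_pos
  rcases hXY with ⟨rfl, rfl⟩ | ⟨rfl, rfl⟩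
  · have h1 : s * t ∈ S ^ 2 := by rw [pow_two]; exact Set.mul_mem_mul hs ht
    have h2 : t * s ∈ S ^ 2 := by rw [pow_two]; exact Set.mul_mem_mul ht hs
    exact (key 2 h1 h2).trans (Nat.pow_le_pow_right hpos (by norm_num))
  · have h1 : s * s * t ∈ S ^ 3 := by
      rw [pow_succ, pow_two]; exact Set.mul_mem_mul (Set.mul_mem_mul hs hs) ht
    have h2 : s * t * s ∈ S ^ 3 := by
      rw [pow_succ, pow_two]; exact Set.mul_mem_mul (Set.mul_mem_mul hs ht) hs
    exact key 3 h1 h2

end Pool.Agent.Q262.UG
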